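import Pool.Agent.Lib_MP_eb4e27_co.Ident

set_option autoImplicit false

open Finset Equiv MvPolynomial

namespace Pool.Agent.Lib_MP_eb4e27_co

variable {N M : ℕ}

/-- the exponent vector `(0, 1, ..., N - 1)` -/
noncomputable def ex (N : ℕ) : Fin N →₀ ℕ := Finsupp.equivFunOnFinite.symm (fun s => (s : ℕ))

/-- the exponent vector `(1, ..., N)` -/
noncomputable def ex' (N : ℕ) : Fin N →₀ ℕ := Finsupp.equivFunOnFinite.symm (fun s => (s : ℕ) + 1)

lemma ex_succ (N : ℕ) : ex (N + 1) = (ex' N).cons 0 := by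
  ext s
  refine Fin.cases ?_ (fun t => ?_) s
  · simp [ex]
  · simp [ex, ex']

/-- The antisymmetrised polynomial. -/
noncomputable def PX (k : Fin N → ℕ) : MvPolynomial (Fin N) ℚ := PP k (fun t => 1 + X t)

/-- The value of the monotone triangle polynomial at a tuple of natural numbers. -/
noncomputable def aa (k : Fin N → ℕ) : ℚ := coeff (ex N) (PX k)

lemma aa_zero (k : Fin 0 → ℕ) : aa k = 1 := by
  have h1 : PX k = 1 := by
    simp [PX, PP, AS, mon, Wp]
  have h2 : ex 0 = 0 := Subsingleton.elim _ _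
  rw [aa, h1, h2]
  simp

/-- restriction to `x_0 = 0` -/
noncomputable def res (N : ℕ) : MvPolynomial (Fin (N + 1)) ℚ →+* MvPolynomial (Fin N) ℚ :=
  (Polynomial.evalRingHom 0).comp (finSuccEquiv ℚ N).toRingEquiv.toRingHom

lemma coeff_res (p : MvPolynomial (Fin (N + 1)) ℚ) (m : Fin N →₀ ℕ) :
    coeff m (res N p) = coeff (m.cons 0) p := by
  rw [← finSuccEquiv_coeff_coeff, Polynomial.coeff_zero_eq_eval_zero]
  rfl

lemma aa_eq_coeff (k : Fin (N + 1) → ℕ) :
    aa k = coeff (ex' N) (PP k (Fin.cons 1 (fun t : Fin N => 1 + X t) :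
      Fin (N + 1) → MvPolynomial (Fin N) ℚ)) := by
  rw [aa, ex_succ, ← coeff_res, PX, map_PP]
  congr 2
  ext1 t
  refine Fin.cases ?_ (fun s => ?_) t
  · simp [res, finSuccEquiv_X_zero]
  · simp [res, finSuccEquiv_X_succ]

lemma coeff_prod_X_mul (p : MvPolynomial (Fin N) ℚ) :
    coeff (ex' N) ((∏ s : Fin N, X s) * p) = coeff (ex N) p := by
  have h1 : (∏ s : Fin N, (X s : MvPolynomial (Fin N) ℚ)) =
      monomial (Finsupp.equivFunOnFinite.symm (fun _ => 1)) 1 := by
    rw [monomial_eq, C_1, one_mul, Finsupp.prod_fintype _ _ (by simp)]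
    simp
  have h2 : ex' N = (Finsupp.equivFunOnFinite.symm (fun _ => 1)) + ex N := by
    ext s
    simp [ex, ex', add_comm]
  rw [h1, h2, coeff_monomial_mul, one_mul]

lemma prod_one_add_X_sub_one :
    (∏ s : Fin N, ((1 + X s : MvPolynomial (Fin N) ℚ) - 1)) = ∏ s : Fin N, X s := by
  apply Finset.prod_congr rfl
  intro s _
  ring

lemma aa_rec (k : Fin (N + 1) → ℕ)
    (hk0 : ∀ h : 0 < N, k 0 ≤ k ⟨1, by omega⟩)
    (hk : ∀ s t : Fin (N + 1), 0 < s → s < t → k s < k t) :
    aa k = ∑ l ∈ Int' k, aa l := by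
  rw [aa_eq_coeff, PP_cons_one_eq_sum k hk0 hk, prod_one_add_X_sub_one, coeff_prod_X_mul,
    coeff_sum]
  rfl

lemma PP_add_one {R : Type*} [CommRing R] (k : Fin N → ℕ) (f : Fin N → R) :
    PP (fun s => k s + 1) f = (∏ s, f s) * PP k f := by
  have h : ∀ x : Fin N → R, mon (fun s => k s + 1) x * Wp x = (∏ s, x s) * (mon k x * Wp x) := by
    intro x
    rw [mon, mon]
    simp only [pow_succ]
    rw [Finset.prod_mul_distrib]
    ring
  rw [PP, AS_congr h, PP]
  apply AS_symm_mul
  intro x σ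
  exact Equiv.prod_comp σ x

lemma PP_identity (c N : ℕ) (h : 2 * c + 1 ≤ N) :
    PP (fun s => kk (c + 1) (N + 1) s + 1) (Fin.cons 1 (fun t : Fin N => 1 + X t) :
      Fin (N + 1) → MvPolynomial (Fin N) ℚ) =
    (∏ s : Fin N, X s) * PX (fun s => kk c N s + 1) := by
  apply MvPolynomial.funext
  intro x
  have h0 := GG_eq_zero c N h (fun t => 1 + x t)
  rw [GG] at h0
  rw [map_mul, map_prod, PX, map_PP, map_PP]
  have h1 : (⇑(MvPolynomial.eval x) ∘ (Fin.cons 1 fun t => 1 + X t) : Fin (N + 1) → ℚ) =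
      Fin.cons 1 (fun t => 1 + x t) := by
    ext t
    refine Fin.cases ?_ (fun s => ?_) t <;> simp
  have h2 : (⇑(MvPolynomial.eval x) ∘ fun t : Fin N => 1 + X t) = fun t => 1 + x t := by
    ext t
    simp
  rw [h1, h2, PP_add_one, PP_add_one, Fin.prod_univ_succ]
  simp only [Fin.cons_zero, Fin.cons_succ, eval_X, one_mul]
  have h3 : (∏ s, (1 + x s - 1)) = ∏ s, x s := by
    apply Finset.prod_congr rfl
    intro s _
    ring
  rw [h3] at h0
  linear_combination (∏ i, (1 + x i)) * h0

/-- The key identity for the values. -/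
theorem aa_kk_succ (c N : ℕ) (h : 2 * c + 1 ≤ N) :
    aa (fun s : Fin (N + 1) => kk (c + 1) (N + 1) s + 1) =
      aa (fun s : Fin N => kk c N s + 1) := by
  rw [aa_eq_coeff, PP_identity c N h, coeff_prod_X_mul, aa]

theorem aa_kk (n i : ℕ) (h : i ≤ n) :
    aa (fun s : Fin (i + n) => kk i (i + n) s + 1) = aa (fun s : Fin n => (s : ℕ) + 1) := by
  induction i with
  | zero =>
    have h1 : (fun s : Fin (0 + n) => kk 0 (0 + n) s + 1) = fun s : Fin (0 + n) => (s : ℕ) + 1 := by
      ext s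
      simp [kk]
    rw [h1]
    generalize hm : 0 + n = m
    have : n = m := by omega
    subst this
    rfl
  | succ i ih =>
    rw [← ih (by omega)]
    have h1 := aa_kk_succ i (i + n) (by omega)
    rw [← h1]
    have h2 : i + 1 + n = i + n + 1 := by omega
    rw [h2]

/-! ### Polynomiality -/

/-- a family of polynomials all of whose coefficients depend polynomially on `k` -/
def CP (p : (Fin N → ℕ) → MvPolynomial (Fin M) ℚ) : Prop :=
  ∀ m, ∃ P : MvPolynomial (Fin N) ℚ, ∀ k : Fin N → ℕ,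
    coeff m (p k) = eval (fun s => (k s : ℚ)) P

lemma CP_const (q : MvPolynomial (Fin M) ℚ) : CP (fun _ : Fin N → ℕ => q) := by
  intro m
  exact ⟨C (coeff m q), fun k => by simp⟩

lemma CP_mul {p q : (Fin N → ℕ) → MvPolynomial (Fin M) ℚ} (hp : CP p) (hq : CP q) :
    CP (fun k => p k * q k) := by
  classical
  intro m
  choose P hP using hp
  choose Q hQ using hq
  refine ⟨∑ x ∈ Finset.HasAntidiagonal.antidiagonal m, P x.1 * Q x.2, fun k => ?_⟩
  rw [coeff_mul, map_sum]
  apply Finset.sum_congr rfl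
  intro x _
  rw [map_mul, hP, hQ]

lemma CP_sum {ι : Type*} (s : Finset ι) {p : ι → (Fin N → ℕ) → MvPolynomial (Fin M) ℚ}
    (hp : ∀ i ∈ s, CP (p i)) : CP (fun k => ∑ i ∈ s, p i k) := by
  classical
  intro m
  choose! P hP using hp
  refine ⟨∑ i ∈ s, P i m, fun k => ?_⟩
  rw [coeff_sum, map_sum]
  apply Finset.sum_congr rfl
  intro i hi
  rw [hP i hi]

lemma CP_prod {ι : Type*} (s : Finset ι) {p : ι → (Fin N → ℕ) → MvPolynomial (Fin M) ℚ}
    (hp : ∀ i ∈ s, CP (p i)) : CP (fun k => ∏ i ∈ s, p i k) := by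
  classical
  induction s using Finset.induction_on with
  | empty => simpa using CP_const 1
  | insert a s ha ih =>
    simp only [Finset.prod_insert ha]
    exact CP_mul (hp a (Finset.mem_insert_self _ _))
      (ih fun i hi => hp i (Finset.mem_insert_of_mem hi))

lemma CP_pow (s : Fin N) (i : Fin M) :
    CP (fun k : Fin N → ℕ => (1 + X i : MvPolynomial (Fin M) ℚ) ^ k s) := by
  classical
  intro m
  by_cases hm : m = Finsupp.single i (m i)
  · refine ⟨C ((m i).factorial : ℚ)⁻¹ * Polynomial.aeval (X s) (descPochhammer ℚ (m i)),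
      fun k => ?_⟩
    show coeff m ((1 + X i : MvPolynomial (Fin M) ℚ) ^ k s) = _
    have h1 : eval (fun s => (k s : ℚ)) (Polynomial.aeval (X s : MvPolynomial (Fin N) ℚ)
        (descPochhammer ℚ (m i))) = (descPochhammer ℚ (m i)).eval (k s : ℚ) := by
      rw [Polynomial.aeval_def, Polynomial.hom_eval₂]
      simp only [eval_X, algebraMap_eq]
      have : (eval fun s => (k s : ℚ)).comp C = RingHom.id ℚ := by
        ext
        simp
      rw [this]
      rfl
    rw [map_mul, eval_C, h1, descPochhammer_eval_eq_descFactorial,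
      Nat.descFactorial_eq_factorial_mul_choose, add_comm, add_pow, coeff_sum]
    have h2 : ∀ j ∈ Finset.range (k s + 1), coeff m
        ((X i : MvPolynomial (Fin M) ℚ) ^ j * 1 ^ (k s - j) * ((k s).choose j : MvPolynomial (Fin M) ℚ)) =
        if j = m i then ((k s).choose j : ℚ) else 0 := by
      intro j _
      rw [one_pow, mul_one, mul_comm]
      have h3 : ((k s).choose j : MvPolynomial (Fin M) ℚ) = C ((k s).choose j : ℚ) := by simp
      rw [h3, coeff_C_mul, coeff_X_pow]
      by_cases hj : j = m i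
      · rw [if_pos hj, if_pos (by rw [hj]; exact hm.symm), mul_one]
      · rw [if_neg hj, if_neg, mul_zero]
        intro h
        apply hj
        rw [← h]
        simp
    rw [Finset.sum_congr rfl h2, Finset.sum_ite_eq']
    have h4 : ((m i).factorial : ℚ) ≠ 0 := by positivity
    split_ifs with h5
    · push_cast
      field_simp
    · rw [Finset.mem_range, not_lt] at h5
      rw [Nat.choose_eq_zero_of_lt (by omega)]
      simp
  · refine ⟨0, fun k => ?_⟩
    show coeff m ((1 + X i : MvPolynomial (Fin M) ℚ) ^ k s) = _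
    rw [map_zero, add_comm, add_pow, coeff_sum]
    apply Finset.sum_eq_zero
    intro j _
    rw [one_pow, mul_one, mul_comm]
    have h3 : ((k s).choose j : MvPolynomial (Fin M) ℚ) = C ((k s).choose j : ℚ) := by simp
    rw [h3, coeff_C_mul, coeff_X_pow, if_neg, mul_zero]
    intro h
    apply hm
    rw [← h]
    simp

lemma CP_PX : CP (fun k : Fin N → ℕ => PX k) := by
  have h1 : (fun k : Fin N → ℕ => PX k) = fun k => ∑ σ : Perm (Fin N),
      (C ((Perm.sign σ : ℤ) : ℚ) * ((∏ s, (1 + X (σ s)) ^ k s) *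
        Wp (fun s => (1 + X (σ s) : MvPolynomial (Fin N) ℚ)))) := by
    ext1 k
    rw [PX, PP, AS]
    apply Finset.sum_congr rfl
    intro σ _
    rw [mon]
    simp only [Function.comp_def]
    congr 1
  rw [h1]
  apply CP_sum
  intro σ _
  apply CP_mul (CP_const _)
  apply CP_mul
  · apply CP_prod
    intro s _
    exact CP_pow s (σ s)
  · exact CP_const _

/-- `aa` is given by a polynomial. -/
theorem exists_poly (N : ℕ) : ∃ P : MvPolynomial (Fin N) ℚ, ∀ k : Fin N → ℕ,
    aa k = eval (fun s => (k s : ℚ)) P := by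
  obtain ⟨P, hP⟩ := CP_PX (N := N) (ex N)
  exact ⟨P, hP⟩

end Pool.Agent.Lib_MP_eb4e27_co
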