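import Mathlib

set_option autoImplicit false

open Finset Equiv

namespace Pool.Agent.Lib_MP_eb4e27_co

section AS

variable {R : Type*} [CommRing R] {N : ℕ}

/-- The antisymmetriser of a function of `N` variables. -/
def AS (Ψ : (Fin N → R) → R) (f : Fin N → R) : R :=
  ∑ σ : Perm (Fin N), ((Perm.sign σ : ℤ) : R) * Ψ (f ∘ σ)

lemma AS_add (Ψ Φ : (Fin N → R) → R) (f : Fin N → R) :
    AS (fun h => Ψ h + Φ h) f = AS Ψ f + AS Φ f := by
  simp [AS, mul_add, Finset.sum_add_distrib]

lemma AS_sub (Ψ Φ : (Fin N → R) → R) (f : Fin N → R) :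
    AS (fun h => Ψ h - Φ h) f = AS Ψ f - AS Φ f := by
  simp [AS, mul_sub, Finset.sum_sub_distrib]

lemma AS_neg (Ψ : (Fin N → R) → R) (f : Fin N → R) :
    AS (fun h => - Ψ h) f = - AS Ψ f := by
  simp [AS]

lemma AS_zero (f : Fin N → R) : AS (fun _ => (0 : R)) f = 0 := by
  simp [AS]

lemma AS_const_mul (c : R) (Ψ : (Fin N → R) → R) (f : Fin N → R) :
    AS (fun h => c * Ψ h) f = c * AS Ψ f := by
  simp only [AS, Finset.mul_sum]
  exact Finset.sum_congr rfl fun σ _ => by ring

lemma AS_sum {ι : Type*} (s : Finset ι) (Ψ : ι → (Fin N → R) → R) (f : Fin N → R) :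
    AS (fun h => ∑ i ∈ s, Ψ i h) f = ∑ i ∈ s, AS (Ψ i) f := by
  simp only [AS, Finset.mul_sum]
  rw [Finset.sum_comm]

lemma AS_symm_mul (S Ψ : (Fin N → R) → R) (hS : ∀ h (σ : Perm (Fin N)), S (h ∘ σ) = S h)
    (f : Fin N → R) :
    AS (fun h => S h * Ψ h) f = S f * AS Ψ f := by
  simp only [AS, Finset.mul_sum]
  exact Finset.sum_congr rfl fun σ _ => by rw [hS]; ring

lemma AS_congr {Ψ Φ : (Fin N → R) → R} (h : ∀ x, Ψ x = Φ x) (f : Fin N → R) :
    AS Ψ f = AS Φ f := by
  have : Ψ = Φ := funext h
  rw [this]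

lemma AS_map {S : Type*} [CommRing S] (φ : R →+* S) (Ψ : (Fin N → R) → R)
    (Φ : (Fin N → S) → S) (h : ∀ x : Fin N → R, φ (Ψ x) = Φ (φ ∘ x)) (f : Fin N → R) :
    φ (AS Ψ f) = AS Φ (φ ∘ f) := by
  simp only [AS, map_sum, map_mul, map_intCast, h]
  rfl

lemma AS_comp_perm (Ψ : (Fin N → R) → R) (f : Fin N → R) (π : Perm (Fin N)) :
    AS Ψ (f ∘ π) = ((Perm.sign π : ℤ) : R) * AS Ψ f := by
  simp only [AS, Finset.mul_sum]
  refine Fintype.sum_equiv (Equiv.mulLeft π) _ _ (fun σ => ?_)
  simp only [Equiv.coe_mulLeft, Perm.sign_mul]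
  have h1 : ((Perm.sign π : ℤ) : R) * ((Perm.sign π : ℤ) : R) = 1 := by
    rw [← Int.cast_mul, ← Units.val_mul, Int.units_mul_self]
    simp
  have h2 : (f ∘ ⇑(π * σ)) = (f ∘ π) ∘ σ := rfl
  rw [h2]
  push_cast
  rw [← mul_assoc, ← mul_assoc, h1, one_mul]

lemma AS_eq_zero_of_symm {Ψ : (Fin N → R) → R} {i j : Fin N} (hij : i ≠ j)
    (hΨ : ∀ h, Ψ (h ∘ swap i j) = Ψ h) (f : Fin N → R) : AS Ψ f = 0 := by
  apply Finset.sum_involution (fun σ _ => σ * swap i j)
  · intro σ _
    have h2 : (f ∘ ⇑(σ * swap i j)) = (f ∘ σ) ∘ swap i j := rfl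
    rw [h2, hΨ, Perm.sign_mul, Perm.sign_swap hij]
    push_cast
    ring
  · intro σ _ _ h
    have : swap i j = 1 := by
      rwa [mul_eq_left] at h
    exact hij (swap_eq_one_iff.1 this)
  · intro σ _
    exact Finset.mem_univ _
  · intro σ _
    rw [mul_assoc, swap_mul_self, mul_one]

lemma AS_eq_zero_of_eq {Ψ : (Fin N → R) → R} {i j : Fin N} (hij : i ≠ j)
    (f : Fin N → R) (hf : f i = f j) : AS Ψ f = 0 := by
  apply Finset.sum_involution (fun σ _ => swap i j * σ)
  · intro σ _
    have h2 : (f ∘ ⇑(swap i j * σ)) = f ∘ σ := by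
      ext t
      simp only [Function.comp_apply, Perm.coe_mul]
      rcases eq_or_ne (σ t) i with h | h
      · rw [h, swap_apply_left, hf]
      · rcases eq_or_ne (σ t) j with h' | h'
        · rw [h', swap_apply_right, hf]
        · rw [swap_apply_of_ne_of_ne h h']
    rw [h2, Perm.sign_mul, Perm.sign_swap hij]
    push_cast
    ring
  · intro σ _ _ h
    have : swap i j = 1 := by
      rwa [mul_eq_right] at h
    exact hij (swap_eq_one_iff.1 this)
  · intro σ _
    exact Finset.mem_univ _
  · intro σ _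
    rw [← mul_assoc, swap_mul_self, one_mul]

/-- Expansion of the antisymmetriser along the first variable. -/
lemma AS_cons (Ψ : (Fin (N + 1) → R) → R) (a : R) (f : Fin N → R) :
    AS Ψ (Fin.cons a f : Fin (N + 1) → R) =
      ∑ r : Fin (N + 1), (-1) ^ (r : ℕ) * AS (fun h => Ψ (r.insertNth a h)) f := by
  simp only [AS, Finset.mul_sum]
  rw [← Finset.sum_product', Finset.univ_product_univ]
  symm
  apply Fintype.sum_bijective
    (fun p : Fin (N + 1) × Perm (Fin N) => Perm.decomposeFin.symm (0, p.2) * p.1.cycleRange)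
  · constructor
    · rintro ⟨r, σ⟩ ⟨r', σ'⟩ h
      simp only at h
      have h1 : ∀ x, (Perm.decomposeFin.symm (0, σ)) (r.cycleRange x) =
          (Perm.decomposeFin.symm (0, σ')) (r'.cycleRange x) := fun x => by
        have := congrArg (fun e : Perm (Fin (N + 1)) => e x) h
        simpa using this
      have hr : r = r' := by
        have h2 := h1 r
        rw [Fin.cycleRange_self, Perm.decomposeFin_symm_apply_zero] at h2
        have h3 : (Perm.decomposeFin.symm (0, σ')) 0 = (0 : Fin (N + 1)) :=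
          Perm.decomposeFin_symm_apply_zero _ _
        rw [← h3] at h2
        have h4 := (Perm.decomposeFin.symm (0, σ')).injective h2
        rw [← Fin.cycleRange_self r'] at h4
        exact r'.cycleRange.injective h4.symm
      subst hr
      have h5 : Perm.decomposeFin.symm (0, σ) = Perm.decomposeFin.symm (0, σ') :=
        mul_right_cancel h
      have h6 := Perm.decomposeFin.symm.injective h5
      simp only [Prod.mk.injEq, true_and] at h6
      rw [h6]
    · intro τ
      set r : Fin (N + 1) := τ⁻¹ 0 with hr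
      set ρ : Perm (Fin (N + 1)) := τ * (r.cycleRange)⁻¹ with hρ
      have hρ0 : ρ 0 = 0 := by
        rw [hρ, Perm.mul_apply]
        have : (r.cycleRange)⁻¹ 0 = r := Fin.cycleRange_symm_zero r
        rw [this, hr]
        simp
      refine ⟨(r, (Perm.decomposeFin ρ).2), ?_⟩
      simp only
      have h1 : Perm.decomposeFin ρ = (0, (Perm.decomposeFin ρ).2) := by
        have h2 : (Perm.decomposeFin ρ).1 = 0 := by
          have h3 := Perm.decomposeFin_symm_apply_zero (Perm.decomposeFin ρ).1
            (Perm.decomposeFin ρ).2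
          rw [Prod.mk.eta, Equiv.symm_apply_apply, hρ0] at h3
          exact h3.symm
        exact Prod.ext h2 rfl
      rw [← h1, Equiv.symm_apply_apply, hρ]
      group
  · rintro ⟨r, σ⟩
    simp only
    have h1 : (Fin.cons a f : Fin (N + 1) → R) ∘
        ⇑(Perm.decomposeFin.symm (0, σ) * r.cycleRange) = r.insertNth a (f ∘ σ) := by
      rw [← Fin.cons_comp_cycleRange]
      ext x
      simp only [Function.comp_apply, Perm.mul_apply]
      generalize r.cycleRange x = y
      refine Fin.cases ?_ (fun i => ?_) y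
      · simp
      · simp
    rw [h1, Perm.sign_mul, Perm.decomposeFin.symm_sign, Fin.sign_cycleRange]
    push_cast
    simp
    ring

/-- Expansion of the antisymmetriser along the first slot. -/
lemma AS_slot (Ψ : (Fin (N + 1) → R) → R) (f : Fin (N + 1) → R) :
    AS Ψ f = ∑ j : Fin (N + 1),
      (-1) ^ (j : ℕ) * AS (fun h => Ψ (Fin.cons (f j) h)) (j.removeNth f) := by
  simp only [AS, Finset.mul_sum]
  rw [← Finset.sum_product', Finset.univ_product_univ]
  symm
  apply Fintype.sum_bijective
    (fun p : Fin (N + 1) × Perm (Fin N) => (p.1.cycleRange)⁻¹ * Perm.decomposeFin.symm (0, p.2))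
  · constructor
    · rintro ⟨r, σ⟩ ⟨r', σ'⟩ h
      simp only at h
      have hr : r = r' := by
        have h2 := congrArg (fun e : Perm (Fin (N + 1)) => e 0) h
        simp only [Perm.mul_apply, Perm.decomposeFin_symm_apply_zero] at h2
        have e1 : ∀ q : Fin (N + 1), (q.cycleRange)⁻¹ 0 = q := fun q =>
          Fin.cycleRange_symm_zero q
        rwa [e1, e1] at h2
      subst hr
      have h5 : Perm.decomposeFin.symm (0, σ) = Perm.decomposeFin.symm (0, σ') :=
        mul_left_cancel h
      have h6 := Perm.decomposeFin.symm.injective h5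
      simp only [Prod.mk.injEq, true_and] at h6
      rw [h6]
    · intro τ
      set r : Fin (N + 1) := τ 0 with hr
      set ρ : Perm (Fin (N + 1)) := r.cycleRange * τ with hρ
      have hρ0 : ρ 0 = 0 := by
        rw [hρ, Perm.mul_apply, ← hr, Fin.cycleRange_self]
      refine ⟨(r, (Perm.decomposeFin ρ).2), ?_⟩
      simp only
      have h1 : Perm.decomposeFin ρ = (0, (Perm.decomposeFin ρ).2) := by
        have h2 : (Perm.decomposeFin ρ).1 = 0 := by
          have h3 := Perm.decomposeFin_symm_apply_zero (Perm.decomposeFin ρ).1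
            (Perm.decomposeFin ρ).2
          rw [Prod.mk.eta, Equiv.symm_apply_apply, hρ0] at h3
          exact h3.symm
        exact Prod.ext h2 rfl
      rw [← h1, Equiv.symm_apply_apply, hρ]
      group
  · rintro ⟨r, σ⟩
    simp only
    have h1 : f ∘ ⇑((r.cycleRange)⁻¹ * Perm.decomposeFin.symm (0, σ)) =
        (Fin.cons (f r) ((r.removeNth f) ∘ σ) : Fin (N + 1) → R) := by
      ext x
      simp only [Function.comp_apply, Perm.mul_apply]
      refine Fin.cases ?_ (fun i => ?_) x
      · rw [Perm.decomposeFin_symm_apply_zero, Fin.cons_zero]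
        congr 1
        exact Fin.cycleRange_symm_zero r
      · rw [Perm.decomposeFin_symm_apply_succ, Fin.cons_succ]
        simp only [swap_self, Equiv.refl_apply, Function.comp_apply, Fin.removeNth_apply]
        congr 1
        exact Fin.cycleRange_symm_succ r (σ i)
    rw [h1, Perm.sign_mul, Perm.decomposeFin.symm_sign, Perm.sign_inv, Fin.sign_cycleRange]
    push_cast
    simp
    ring

end AS

end Pool.Agent.Lib_MP_eb4e27_co
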