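import Pool.Agent.Lib_MP_eb4e27_co.Defs

set_option autoImplicit false

open Finset

namespace Pool.Agent.Lib_MP_eb4e27_co

variable {n : ℕ}

/-- prefix sums -/
def ps (v : Fin n → ℤ) (m : ℕ) : ℤ := ∑ i : Fin n, if (i : ℕ) < m then v i else 0

lemma ps_zero (v : Fin n → ℤ) : ps v 0 = 0 := by simp [ps]

lemma ps_of_ge (v : Fin n → ℤ) {m : ℕ} (hm : n ≤ m) : ps v m = ∑ i, v i := by
  rw [ps]
  apply Finset.sum_congr rfl
  intro i _
  rw [if_pos (by omega)]

lemma ps_succ (v : Fin n → ℤ) (i : Fin n) : ps v ((i : ℕ) + 1) = ps v i + v i := by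
  rw [ps, ps]
  have h : ∀ j : Fin n, (if (j : ℕ) < (i : ℕ) + 1 then v j else 0) =
      (if (j : ℕ) < i then v j else 0) + (if j = i then v j else 0) := by
    intro j
    by_cases h1 : j = i
    · subst h1
      simp
    · have h2 : (j : ℕ) ≠ i := fun h => h1 (Fin.ext h)
      by_cases h3 : (j : ℕ) < i
      · rw [if_pos (by omega), if_pos h3, if_neg h1, add_zero]
      · rw [if_neg (by omega), if_neg h3, if_neg h1, add_zero]
  rw [Finset.sum_congr rfl (fun j _ => h j), Finset.sum_add_distrib]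
  simp

lemma ps_succ' (v : Fin n → ℤ) {m : ℕ} (hm : m < n) : ps v (m + 1) = ps v m + v ⟨m, hm⟩ :=
  ps_succ v ⟨m, hm⟩

lemma ps_const_zero (v : Fin n → ℤ) (a b : ℕ) (hab : a ≤ b)
    (h : ∀ l : Fin n, a ≤ (l : ℕ) → (l : ℕ) < b → v l = 0) : ps v b = ps v a := by
  rw [ps, ps]
  apply Finset.sum_congr rfl
  intro i _
  by_cases h1 : (i : ℕ) < a
  · rw [if_pos h1, if_pos (by omega)]
  · rw [if_neg h1]
    split_ifs with h2
    · exact h i (by omega) h2
    · rfl

/-- Characterisation of alternating vectors by prefix sums. -/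
lemma alt_iff (v : Fin n → ℤ) : AlternatesWithSumOne v ↔
    (∀ m, 0 ≤ ps v m ∧ ps v m ≤ 1) ∧ ps v n = 1 := by
  constructor
  · rintro ⟨h1, h2, h3⟩
    have htot : ps v n = 1 := by rw [ps_of_ge v le_rfl, h2]
    refine ⟨?_, htot⟩
    -- the first nonzero entry
    have hex : ∃ i : Fin n, v i ≠ 0 := by
      by_contra hcon
      push Not at hcon
      rw [Finset.sum_eq_zero (fun i _ => hcon i)] at h2
      exact zero_ne_one h2
    classical
    have hex' : ∃ m : ℕ, ∃ h : m < n, v ⟨m, h⟩ ≠ 0 := by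
      obtain ⟨i, hi⟩ := hex
      exact ⟨i, i.isLt, hi⟩
    set i₀ := Nat.find hex' with hi₀
    obtain ⟨hi₀n, hi₀v⟩ := Nat.find_spec hex'
    have hmin : ∀ l : Fin n, (l : ℕ) < i₀ → v l = 0 := by
      intro l hl
      by_contra hcon
      exact Nat.find_min hex' hl ⟨l.isLt, hcon⟩
    set ε := v ⟨i₀, hi₀n⟩ with hε
    have hlow : ∀ m, m ≤ i₀ → ps v m = 0 := by
      intro m hm
      rw [ps_const_zero v 0 m (Nat.zero_le _) (fun l _ hl => hmin l (by omega)), ps_zero]
    have key : ∀ m, i₀ < m → m ≤ n → ∃ i : Fin n, (i : ℕ) < m ∧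
        (∀ l : Fin n, (i : ℕ) < l → (l : ℕ) < m → v l = 0) ∧
        ((ps v m = 0 ∧ v i = -ε) ∨ (ps v m = ε ∧ v i = ε)) := by
      intro m hm
      induction m, hm using Nat.le_induction with
      | base =>
        intro _
        refine ⟨⟨i₀, hi₀n⟩, by simp, fun l hl1 hl2 => ?_, Or.inr ⟨?_, rfl⟩⟩
        · simp only at hl1
          omega
        · rw [Nat.succ_eq_add_one, ps_succ' v hi₀n, hlow i₀ le_rfl, zero_add]
      | succ m hm ih =>
        intro hmn
        obtain ⟨i, him, hi0, hi⟩ := ih (by omega)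
        have hm' : m < n := by omega
        by_cases hv : v ⟨m, hm'⟩ = 0
        · refine ⟨i, by omega, fun l hl1 hl2 => ?_, ?_⟩
          · by_cases hlm : (l : ℕ) = m
            · have : l = ⟨m, hm'⟩ := Fin.ext hlm
              rw [this]; exact hv
            · exact hi0 l hl1 (by omega)
          · rw [ps_succ' v hm', hv, add_zero]
            exact hi
        · have hvi : v i ≠ 0 := by
            rcases hi with ⟨-, h⟩ | ⟨-, h⟩
            · rw [h]; exact neg_ne_zero.2 hi₀v
            · rw [h]; exact hi₀v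
          have h4 := h3 i ⟨m, hm'⟩ (by rw [Fin.lt_def]; exact him) hvi hv
            (fun l hl1 hl2 => hi0 l hl1 hl2)
          refine ⟨⟨m, hm'⟩, by simp, fun l hl1 hl2 => ?_, ?_⟩
          · simp only at hl1
            omega
          · rw [ps_succ' v hm', h4]
            rcases hi with ⟨h5, h6⟩ | ⟨h5, h6⟩
            · right
              rw [h5, h6]
              constructor <;> ring
            · left
              rw [h5, h6]
              constructor
              · ring
              · rfl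
    have hε1 : ε = 1 := by
      obtain ⟨i, -, -, h⟩ := key n (by omega) le_rfl
      rw [htot] at h
      rcases h with ⟨h, -⟩ | ⟨h, -⟩
      · exact absurd h one_ne_zero
      · exact h.symm
    intro m
    by_cases hm1 : m ≤ i₀
    · rw [hlow m hm1]; simp
    · by_cases hm2 : m ≤ n
      · obtain ⟨i, -, -, h⟩ := key m (by omega) hm2
        rcases h with ⟨h, -⟩ | ⟨h, -⟩
        · rw [h]; simp
        · rw [h, hε1]; simp
      · rw [ps_of_ge v (by omega), h2]; simp
  · rintro ⟨h1, h2⟩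
    refine ⟨fun i => ?_, ?_, fun i j hij hvi hvj hz => ?_⟩
    · have h3 := h1 i
      have h4 := h1 ((i : ℕ) + 1)
      rw [ps_succ] at h4
      omega
    · rw [← ps_of_ge v le_rfl, h2]
    · have h3 := h1 i
      have h4 := h1 ((i : ℕ) + 1)
      have h5 := h1 j
      have h6 := h1 ((j : ℕ) + 1)
      have h7 : ps v j = ps v ((i : ℕ) + 1) := by
        apply ps_const_zero
        · exact hij
        · intro l hl1 hl2
          exact hz l (by rw [Fin.lt_def]; omega) (by rw [Fin.lt_def]; omega)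
      rw [ps_succ] at h4 h6 h7
      omega

/-- height functions (corner sum matrices) -/
def IsHeight (n : ℕ) (H : ℕ → ℕ → ℤ) : Prop :=
  (∀ j, j ≤ n → H j 0 = 0) ∧ (∀ x, x ≤ n → H 0 x = 0) ∧ (∀ j, j ≤ n → H j n = j) ∧
  (∀ x, x ≤ n → H n x = x) ∧
  (∀ j x, j ≤ n → x < n → H j x ≤ H j (x + 1) ∧ H j (x + 1) ≤ H j x + 1) ∧
  (∀ j x, j < n → x ≤ n → H j x ≤ H (j + 1) x ∧ H (j + 1) x ≤ H j x + 1) ∧
  (∀ j x, n < j ∨ n < x → H j x = 0)

/-- matrix of second differences -/
def diffMat (n : ℕ) (H : ℕ → ℕ → ℤ) : Matrix (Fin n) (Fin n) ℤ := fun i y =>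
  H (i + 1) (y + 1) - H i (y + 1) - H (i + 1) y + H i y

/-- corner sums -/
def corner (M : Matrix (Fin n) (Fin n) ℤ) : ℕ → ℕ → ℤ := fun j x =>
  if j ≤ n ∧ x ≤ n then ps (fun i => ps (fun y => M i y) x) j else 0

lemma ps_ps_comm (M : Matrix (Fin n) (Fin n) ℤ) (j x : ℕ) :
    ps (fun i => ps (fun y => M i y) x) j = ps (fun y => ps (fun i => M i y) j) x := by
  simp only [ps]
  have h1 : ∀ i : Fin n, (if (i : ℕ) < j then ∑ y : Fin n, (if (y : ℕ) < x then M i y else 0)
      else 0) = ∑ y : Fin n, (if (i : ℕ) < j then (if (y : ℕ) < x then M i y else 0) else 0) := by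
    intro i
    split_ifs <;> simp
  have h2 : ∀ y : Fin n, (if (y : ℕ) < x then ∑ i : Fin n, (if (i : ℕ) < j then M i y else 0)
      else 0) = ∑ i : Fin n, (if (y : ℕ) < x then (if (i : ℕ) < j then M i y else 0) else 0) := by
    intro y
    split_ifs <;> simp
  simp only [h1, h2]
  rw [Finset.sum_comm]
  apply Finset.sum_congr rfl
  intro y _
  apply Finset.sum_congr rfl
  intro i _
  split_ifs <;> rfl

lemma ps_tele (g : ℕ → ℤ) (v : Fin n → ℤ) (hv : ∀ i : Fin n, v i = g (i + 1) - g i) (m : ℕ)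
    (hm : m ≤ n) : ps v m = g m - g 0 := by
  induction m with
  | zero => rw [ps_zero]; ring
  | succ m ih =>
    rw [ps_succ' v (by omega), ih (by omega), hv]
    ring

lemma isHeight_corner {M : Matrix (Fin n) (Fin n) ℤ} (hM : IsASM M) :
    IsHeight n (corner M) := by
  have hrow := fun i => (alt_iff _).1 (hM.1 i)
  have hcol := fun y => (alt_iff _).1 (hM.2 y)
  refine ⟨fun j hj => ?_, fun x hx => ?_, fun j hj => ?_, fun x hx => ?_, fun j x hj hx => ?_,
    fun j x hj hx => ?_, fun j x h => ?_⟩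
  · rw [corner, if_pos ⟨hj, Nat.zero_le _⟩, ps_ps_comm, ps_zero]
  · rw [corner, if_pos ⟨Nat.zero_le _, hx⟩, ps_zero]
  · rw [corner, if_pos ⟨hj, le_rfl⟩]
    have : (fun i => ps (fun y => M i y) n) = fun _ => 1 := by
      funext i
      exact (hrow i).2
    rw [this, ps_tele (fun m => (m : ℤ)) _ (fun i => by push_cast; ring) j hj]
    simp
  · rw [corner, if_pos ⟨le_rfl, hx⟩, ps_ps_comm]
    have : (fun y => ps (fun i => M i y) n) = fun _ => 1 := by
      funext y
      exact (hcol y).2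
    rw [this, ps_tele (fun m => (m : ℤ)) _ (fun i => by push_cast; ring) x hx]
    simp
  · rw [corner, corner, if_pos ⟨hj, by omega⟩, if_pos ⟨hj, by omega⟩, ps_ps_comm M j x,
      ps_ps_comm M j (x + 1), ps_succ' _ hx]
    have := (hcol ⟨x, hx⟩).1 j
    omega
  · rw [corner, corner, if_pos ⟨by omega, hx⟩, if_pos ⟨by omega, hx⟩, ps_succ' _ hj]
    have := (hrow ⟨j, hj⟩).1 x
    omega
  · rw [corner, if_neg (by omega)]

lemma diffMat_corner (M : Matrix (Fin n) (Fin n) ℤ) : diffMat n (corner M) = M := by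
  funext i y
  have hi := i.isLt
  have hy := y.isLt
  simp only [diffMat, corner]
  rw [if_pos (by omega), if_pos (by omega), if_pos (by omega), if_pos (by omega), ps_succ,
    ps_succ, ps_succ]
  ring

lemma ps_row_diffMat {H : ℕ → ℕ → ℤ} (hH : IsHeight n H) (i : Fin n) (x : ℕ) (hx : x ≤ n) :
    ps (fun y => diffMat n H i y) x = H (i + 1) x - H i x := by
  rw [ps_tele (fun m => H (i + 1) m - H i m) _ (fun y => by simp only [diffMat]; ring) x hx]
  rw [hH.1 _ (by omega), hH.1 _ (by omega)]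
  ring

lemma ps_col_diffMat {H : ℕ → ℕ → ℤ} (hH : IsHeight n H) (y : Fin n) (j : ℕ) (hj : j ≤ n) :
    ps (fun i => diffMat n H i y) j = H j (y + 1) - H j y := by
  rw [ps_tele (fun m => H m (y + 1) - H m y) _ (fun i => by simp only [diffMat]; ring) j hj]
  rw [hH.2.1 _ (by omega), hH.2.1 _ (by omega)]
  ring

lemma corner_diffMat {H : ℕ → ℕ → ℤ} (hH : IsHeight n H) : corner (diffMat n H) = H := by
  funext j x
  rw [corner]
  split_ifs with h
  · have h1 : (fun i : Fin n => ps (fun y => diffMat n H i y) x) =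
        fun i : Fin n => H (i + 1) x - H i x := by
      funext i
      exact ps_row_diffMat hH i x h.2
    rw [h1, ps_tele (fun m => H m x) _ (fun i => rfl) j h.1, hH.2.1 x h.2]
    ring
  · rw [hH.2.2.2.2.2.2 j x (by omega)]

lemma isASM_diffMat {H : ℕ → ℕ → ℤ} (hH : IsHeight n H) : IsASM (diffMat n H) := by
  obtain ⟨h1, h2, h3, h4, h5, h6, h7⟩ := hH
  have hH : IsHeight n H := ⟨h1, h2, h3, h4, h5, h6, h7⟩
  refine ⟨fun i => (alt_iff _).2 ⟨fun m => ?_, ?_⟩, fun y => (alt_iff _).2 ⟨fun m => ?_, ?_⟩⟩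
  · by_cases hm : m ≤ n
    · rw [ps_row_diffMat hH i m hm]
      have := h6 i m i.isLt hm
      omega
    · rw [ps_of_ge _ (by omega : n ≤ m), ← ps_of_ge _ le_rfl, ps_row_diffMat hH i n le_rfl,
        h3 _ (by omega), h3 _ (by omega)]
      push_cast
      omega
  · rw [ps_row_diffMat hH i n le_rfl, h3 _ (by omega), h3 _ (by omega)]
    push_cast
    ring
  · by_cases hm : m ≤ n
    · rw [ps_col_diffMat hH y m hm]
      have := h5 m y hm y.isLt
      omega
    · rw [ps_of_ge _ (by omega : n ≤ m), ← ps_of_ge _ le_rfl, ps_col_diffMat hH y n le_rfl,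
        h4 _ (by omega), h4 _ (by omega)]
      push_cast
      omega
  · rw [ps_col_diffMat hH y n le_rfl, h4 _ (by omega), h4 _ (by omega)]
    push_cast
    ring

/-- ASMs correspond to height functions. -/
def asmEquiv (n : ℕ) : {M : Matrix (Fin n) (Fin n) ℤ // IsASM M} ≃
    {H : ℕ → ℕ → ℤ // IsHeight n H} where
  toFun M := ⟨corner M.1, isHeight_corner M.2⟩
  invFun H := ⟨diffMat n H.1, isASM_diffMat H.2⟩
  left_inv M := Subtype.ext (diffMat_corner M.1)
  right_inv H := Subtype.ext (corner_diffMat H.2)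

end Pool.Agent.Lib_MP_eb4e27_co
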