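import Pool.Agent.Lib_MP_eb4e27_co.Asm

set_option autoImplicit false

open Finset

namespace Pool.Agent.Lib_MP_eb4e27_co

variable {n : ℕ}

/-- from triangles to height functions -/
def toH (n : ℕ) (a : ℕ → ℕ → ℤ) : ℕ → ℕ → ℤ := fun j x =>
  if j ≤ n ∧ x ≤ n then (((Finset.Icc 1 j).filter fun k => a j k ≤ (x : ℤ)).card : ℤ) else 0

/-- from height functions to triangles -/
def toA (n : ℕ) (H : ℕ → ℕ → ℤ) : ℕ → ℕ → ℤ := fun j k =>
  if 1 ≤ k ∧ k ≤ j ∧ j ≤ n then
    (((Finset.range (n + 1)).filter fun x => H j x < (k : ℤ)).card : ℤ) else 0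

lemma seg_card (p : ℕ → Prop) [DecidablePred p] (hdown : ∀ x, x < n → p (x + 1) → p x)
    (x : ℕ) (hx : x ≤ n) : p x ↔ x < ((Finset.range (n + 1)).filter p).card := by
  have hdown' : ∀ y x, y ≤ x → x ≤ n → p x → p y := by
    intro y x hyx
    induction x, hyx using Nat.le_induction with
    | base => intro _ h; exact h
    | succ m hm ih => intro hmn h; exact ih (by omega) (hdown m (by omega) h)
  constructor
  · intro h
    have h1 : Finset.range (x + 1) ⊆ (Finset.range (n + 1)).filter p := by
      intro y hy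
      rw [Finset.mem_range] at hy
      rw [Finset.mem_filter, Finset.mem_range]
      exact ⟨by omega, hdown' y x (by omega) hx h⟩
    have h2 := Finset.card_le_card h1
    rw [Finset.card_range] at h2
    omega
  · intro h
    by_contra hcon
    have h1 : (Finset.range (n + 1)).filter p ⊆ Finset.range x := by
      intro y hy
      rw [Finset.mem_filter, Finset.mem_range] at hy
      rw [Finset.mem_range]
      by_contra hyx
      exact hcon (hdown' x y (by omega) (by omega) hy.2)
    have h2 := Finset.card_le_card h1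
    rw [Finset.card_range] at h2
    omega

section MT

variable {a : ℕ → ℕ → ℤ}

lemma row_strict (h : IsMonotoneTriangle n a) (j : ℕ) (hj : j ≤ n)
    (p q : ℕ) (hp : 1 ≤ p) (hpq : p < q) (hq : q ≤ j) : a j p < a j q := by
  induction q, hpq using Nat.le_induction with
  | base => exact h.1 j p hp (by omega) hj
  | succ m hm ih =>
    exact (ih (by omega)).trans (h.1 j m (by omega) (by omega) hj)

lemma entry_bounds (h : IsMonotoneTriangle n a) (hb : ∀ t : Fin n, a n ((t : ℕ) + 1) = (t : ℕ) + 1) :
    ∀ d j k, j + d = n → 1 ≤ k → k ≤ j → (k : ℤ) ≤ a j k ∧ a j k ≤ k + d := by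
  have hb' : ∀ k, 1 ≤ k → k ≤ n → a n k = k := by
    intro k hk hkn
    have := hb ⟨k - 1, by omega⟩
    have h6 : k - 1 + 1 = k := by omega
    simp only [h6] at this
    rw [this]
    omega
  intro d
  induction d with
  | zero =>
    intro j k hj hk hkj
    have : j = n := by omega
    subst this
    rw [hb' k hk hkj]
    simp
  | succ d ih =>
    intro j k hj hk hkj
    have h1 := h.2.1 j k hk hkj (by omega)
    have h2 := ih (j + 1) k (by omega) hk (by omega)
    have h3 := ih (j + 1) (k + 1) (by omega) (by omega) (by omega)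
    push_cast at h3 ⊢
    omega

lemma isHeight_toH (h : IsMonotoneTriangle n a)
    (hb : ∀ t : Fin n, a n ((t : ℕ) + 1) = (t : ℕ) + 1) : IsHeight n (toH n a) := by
  have hbd : ∀ j k, j ≤ n → 1 ≤ k → k ≤ j → 1 ≤ a j k ∧ a j k ≤ n := by
    intro j k hj hk hkj
    have := entry_bounds h hb (n - j) j k (by omega) hk hkj
    push_cast [Nat.cast_sub hj] at this
    omega
  have hb' : ∀ k, 1 ≤ k → k ≤ n → a n k = k := by
    intro k hk hkn
    have := hb ⟨k - 1, by omega⟩
    have h6 : k - 1 + 1 = k := by omega
    simp only [h6] at this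
    rw [this]
    omega
  refine ⟨fun j hj => ?_, fun x hx => ?_, fun j hj => ?_, fun x hx => ?_, fun j x hj hx => ?_,
    fun j x hj hx => ?_, fun j x h => ?_⟩
  · rw [toH, if_pos ⟨hj, Nat.zero_le _⟩, Finset.filter_false_of_mem]
    · simp
    · intro k hk
      rw [Finset.mem_Icc] at hk
      have := hbd j k hj hk.1 hk.2
      push_cast
      omega
  · rw [toH, if_pos ⟨Nat.zero_le _, hx⟩]
    simp
  · rw [toH, if_pos ⟨hj, le_rfl⟩, Finset.filter_true_of_mem]
    · simp
    · intro k hk
      rw [Finset.mem_Icc] at hk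
      exact (hbd j k hj hk.1 hk.2).2
  · rw [toH, if_pos ⟨le_rfl, hx⟩]
    have : (Finset.Icc 1 n).filter (fun k => a n k ≤ (x : ℤ)) = Finset.Icc 1 x := by
      ext k
      rw [Finset.mem_filter, Finset.mem_Icc, Finset.mem_Icc]
      constructor
      · rintro ⟨⟨h1, h2⟩, h3⟩
        rw [hb' k h1 h2] at h3
        omega
      · rintro ⟨h1, h2⟩
        refine ⟨⟨h1, by omega⟩, ?_⟩
        rw [hb' k h1 (by omega)]
        omega
    rw [this]
    simp
  · rw [toH, toH, if_pos ⟨hj, by omega⟩, if_pos ⟨hj, by omega⟩]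
    constructor
    · have : (Finset.Icc 1 j).filter (fun k => a j k ≤ (x : ℤ)) ⊆
          (Finset.Icc 1 j).filter (fun k => a j k ≤ ((x + 1 : ℕ) : ℤ)) := by
        intro k hk
        rw [Finset.mem_filter] at hk ⊢
        refine ⟨hk.1, ?_⟩
        push_cast
        omega
      exact_mod_cast Finset.card_le_card this
    · have h1 : (Finset.Icc 1 j).filter (fun k => a j k ≤ ((x + 1 : ℕ) : ℤ)) ⊆
          (Finset.Icc 1 j).filter (fun k => a j k ≤ (x : ℤ)) ∪
          (Finset.Icc 1 j).filter (fun k => a j k = (x : ℤ) + 1) := by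
        intro k hk
        rw [Finset.mem_filter] at hk
        rw [Finset.mem_union, Finset.mem_filter, Finset.mem_filter]
        have h2 := hk.2
        push_cast at h2
        by_cases h3 : a j k ≤ x
        · exact Or.inl ⟨hk.1, h3⟩
        · exact Or.inr ⟨hk.1, by omega⟩
      have h2 : ((Finset.Icc 1 j).filter (fun k => a j k = (x : ℤ) + 1)).card ≤ 1 := by
        rw [Finset.card_le_one]
        intro p hp q hq
        rw [Finset.mem_filter, Finset.mem_Icc] at hp hq
        rcases lt_trichotomy p q with hpq | hpq | hpq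
        · have := row_strict h j hj p q hp.1.1 hpq hq.1.2
          omega
        · exact hpq
        · have := row_strict h j hj q p hq.1.1 hpq hp.1.2
          omega
      have h3 := (Finset.card_le_card h1).trans (Finset.card_union_le _ _)
      have h4 := h3.trans (Nat.add_le_add_left h2 _)
      exact_mod_cast h4
  · rw [toH, toH, if_pos ⟨by omega, hx⟩, if_pos ⟨by omega, hx⟩]
    constructor
    · have : (Finset.Icc 1 j).filter (fun k => a j k ≤ (x : ℤ)) ⊆
          (Finset.Icc 1 (j + 1)).filter (fun k => a (j + 1) k ≤ (x : ℤ)) := by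
        intro k hk
        rw [Finset.mem_filter, Finset.mem_Icc] at hk ⊢
        have := (h.2.1 j k hk.1.1 hk.1.2 hj).1
        exact ⟨⟨hk.1.1, by omega⟩, by omega⟩
      exact_mod_cast Finset.card_le_card this
    · have h1 : (Finset.Icc 1 (j + 1)).filter (fun k => a (j + 1) k ≤ (x : ℤ)) ⊆
          insert 1 (((Finset.Icc 1 j).filter (fun k => a j k ≤ (x : ℤ))).image (· + 1)) := by
        intro k hk
        rw [Finset.mem_filter, Finset.mem_Icc] at hk
        rw [Finset.mem_insert, Finset.mem_image]
        by_cases hk1 : k = 1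
        · exact Or.inl hk1
        · right
          refine ⟨k - 1, ?_, by omega⟩
          rw [Finset.mem_filter, Finset.mem_Icc]
          have h5 := (h.2.1 j (k - 1) (by omega) (by omega) hj).2
          have h6 : k - 1 + 1 = k := by omega
          rw [h6] at h5
          exact ⟨⟨by omega, by omega⟩, by omega⟩
      have h2 := (Finset.card_le_card h1).trans (Finset.card_insert_le _ _)
      have h3 := h2.trans (Nat.add_le_add_right Finset.card_image_le 1)
      exact_mod_cast h3
  · rw [toH, if_neg (by omega)]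

lemma toA_toH (h : IsMonotoneTriangle n a)
    (hb : ∀ t : Fin n, a n ((t : ℕ) + 1) = (t : ℕ) + 1) : toA n (toH n a) = a := by
  have hbd : ∀ j k, j ≤ n → 1 ≤ k → k ≤ j → 1 ≤ a j k ∧ a j k ≤ n := by
    intro j k hj hk hkj
    have := entry_bounds h hb (n - j) j k (by omega) hk hkj
    push_cast [Nat.cast_sub hj] at this
    omega
  funext j k
  rw [toA]
  split_ifs with hjk
  · obtain ⟨hk, hkj, hj⟩ := hjk
    have hb1 := hbd j k hj hk hkj
    have h1 : (Finset.range (n + 1)).filter (fun x => toH n a j x < (k : ℤ)) =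
        Finset.range (a j k).toNat := by
      ext x
      rw [Finset.mem_filter, Finset.mem_range, Finset.mem_range]
      constructor
      · rintro ⟨hx, hlt⟩
        rw [toH, if_pos ⟨hj, by omega⟩] at hlt
        by_contra hcon
        have h2 : Finset.Icc 1 k ⊆ (Finset.Icc 1 j).filter (fun k => a j k ≤ (x : ℤ)) := by
          intro q hq
          rw [Finset.mem_Icc] at hq
          rw [Finset.mem_filter, Finset.mem_Icc]
          refine ⟨⟨hq.1, by omega⟩, ?_⟩
          rcases eq_or_lt_of_le hq.2 with h3 | h3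
          · rw [h3]; omega
          · have := row_strict h j hj q k hq.1 h3 hkj
            omega
        have h3 := Finset.card_le_card h2
        rw [Nat.card_Icc] at h3
        omega
      · intro hx
        refine ⟨by omega, ?_⟩
        rw [toH, if_pos ⟨hj, by omega⟩]
        have h2 : (Finset.Icc 1 j).filter (fun k => a j k ≤ (x : ℤ)) ⊆ Finset.Icc 1 (k - 1) := by
          intro q hq
          rw [Finset.mem_filter, Finset.mem_Icc] at hq
          rw [Finset.mem_Icc]
          refine ⟨hq.1.1, ?_⟩
          by_contra hcon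
          have h3 : a j k ≤ a j q := by
            rcases eq_or_lt_of_le (show k ≤ q by omega) with h4 | h4
            · rw [h4]
            · exact (row_strict h j hj k q hk h4 hq.1.2).le
          omega
        have h3 := Finset.card_le_card h2
        rw [Nat.card_Icc] at h3
        omega
    rw [h1, Finset.card_range]
    omega
  · rw [h.2.2 j k hjk]

end MT

section Height

variable {H : ℕ → ℕ → ℤ}

lemma height_mono (hH : IsHeight n H) (j : ℕ) (hj : j ≤ n) (x y : ℕ) (hxy : x ≤ y) (hy : y ≤ n) :
    H j x ≤ H j y := by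
  induction y, hxy using Nat.le_induction with
  | base => exact le_rfl
  | succ m hm ih => exact (ih (by omega)).trans (hH.2.2.2.2.1 j m hj (by omega)).1

lemma height_bounds (hH : IsHeight n H) (j : ℕ) (hj : j ≤ n) (x : ℕ) (hx : x ≤ n) :
    0 ≤ H j x ∧ H j x ≤ j := by
  have h1 := height_mono hH j hj 0 x (Nat.zero_le _) hx
  have h2 := height_mono hH j hj x n hx le_rfl
  rw [hH.1 j hj] at h1
  rw [hH.2.2.1 j hj] at h2
  exact ⟨h1, h2⟩

lemma lt_toA_iff (hH : IsHeight n H) (j k : ℕ) (hk : 1 ≤ k) (hkj : k ≤ j) (hj : j ≤ n) (x : ℕ)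
    (hx : x ≤ n) : H j x < (k : ℤ) ↔ (x : ℤ) < toA n H j k := by
  rw [toA, if_pos ⟨hk, hkj, hj⟩]
  have := seg_card (n := n) (fun x => H j x < (k : ℤ)) (fun x hx h => by
    have := (hH.2.2.2.2.1 j x hj hx).1
    omega) x hx
  rw [this]
  norm_cast

lemma isMT_toA (hH : IsHeight n H) : IsMonotoneTriangle n (toA n H) := by
  refine ⟨fun j k hk hkj hj => ?_, fun j k hk hkj hj => ?_, fun j k hjk => ?_⟩
  · -- strictly increasing
    rw [toA, toA, if_pos ⟨hk, by omega, hj⟩, if_pos ⟨by omega, by omega, hj⟩]
    have hex : ∃ x, x ≤ n ∧ H j x = k := by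
      have h1 : ∃ x, x ≤ n ∧ (k : ℤ) ≤ H j x := ⟨n, le_rfl, by rw [hH.2.2.1 j hj]; omega⟩
      classical
      obtain ⟨hx1, hx2⟩ := Nat.find_spec h1
      set x := Nat.find h1 with hx
      refine ⟨x, hx1, ?_⟩
      have hx0 : x ≠ 0 := by
        intro h0
        rw [h0, hH.1 j hj] at hx2
        omega
      have h2 := Nat.find_min h1 (m := x - 1) (by omega)
      push Not at h2
      have h3 := h2 (by omega)
      have h4 := (hH.2.2.2.2.1 j (x - 1) hj (by omega)).2
      have h5 : x - 1 + 1 = x := by omega
      rw [h5] at h4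
      omega
    obtain ⟨x, hx, hxk⟩ := hex
    have h6 : (Finset.range (n + 1)).filter (fun x => H j x < (k : ℤ)) ⊂
        (Finset.range (n + 1)).filter (fun x => H j x < ((k + 1 : ℕ) : ℤ)) := by
      rw [Finset.ssubset_iff_of_subset]
      · refine ⟨x, ?_, ?_⟩
        · rw [Finset.mem_filter, Finset.mem_range]
          push_cast
          omega
        · rw [Finset.mem_filter]
          omega
      · intro y hy
        rw [Finset.mem_filter] at hy ⊢
        push_cast
        exact ⟨hy.1, by omega⟩
    exact_mod_cast Finset.card_lt_card h6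
  · -- interlacing
    rw [toA, toA, toA, if_pos ⟨hk, by omega, by omega⟩, if_pos ⟨hk, by omega, by omega⟩,
      if_pos ⟨by omega, by omega, by omega⟩]
    constructor
    · have h6 : (Finset.range (n + 1)).filter (fun x => H (j + 1) x < (k : ℤ)) ⊆
          (Finset.range (n + 1)).filter (fun x => H j x < (k : ℤ)) := by
        intro y hy
        rw [Finset.mem_filter, Finset.mem_range] at hy ⊢
        have := (hH.2.2.2.2.2.1 j y hj (by omega)).1
        exact ⟨hy.1, by omega⟩
      exact_mod_cast Finset.card_le_card h6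
    · have h6 : (Finset.range (n + 1)).filter (fun x => H j x < (k : ℤ)) ⊆
          (Finset.range (n + 1)).filter (fun x => H (j + 1) x < ((k + 1 : ℕ) : ℤ)) := by
        intro y hy
        rw [Finset.mem_filter, Finset.mem_range] at hy ⊢
        have := (hH.2.2.2.2.2.1 j y hj (by omega)).2
        push_cast
        exact ⟨hy.1, by omega⟩
      exact_mod_cast Finset.card_le_card h6
  · rw [toA, if_neg hjk]

lemma toA_bottom (hH : IsHeight n H) (t : Fin n) : toA n H n ((t : ℕ) + 1) = (t : ℕ) + 1 := by
  rw [toA, if_pos ⟨by omega, by omega, le_rfl⟩]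
  have : (Finset.range (n + 1)).filter (fun x => H n x < (((t : ℕ) + 1 : ℕ) : ℤ)) =
      Finset.range ((t : ℕ) + 1) := by
    ext x
    rw [Finset.mem_filter, Finset.mem_range, Finset.mem_range]
    constructor
    · rintro ⟨h1, h2⟩
      rw [hH.2.2.2.1 x (by omega)] at h2
      omega
    · intro h1
      have := t.isLt
      refine ⟨by omega, ?_⟩
      rw [hH.2.2.2.1 x (by omega)]
      omega
  rw [this]
  simp

lemma toH_toA (hH : IsHeight n H) : toH n (toA n H) = H := by
  funext j x
  rw [toH]
  split_ifs with h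
  · obtain ⟨hj, hx⟩ := h
    have hb := height_bounds hH j hj x hx
    have h1 : (Finset.Icc 1 j).filter (fun k => toA n H j k ≤ (x : ℤ)) =
        Finset.Icc 1 (H j x).toNat := by
      ext k
      rw [Finset.mem_filter, Finset.mem_Icc, Finset.mem_Icc]
      constructor
      · rintro ⟨⟨h2, h3⟩, h4⟩
        have h5 := lt_toA_iff hH j k h2 h3 hj x hx
        refine ⟨h2, ?_⟩
        have h6 : ¬ (H j x < (k : ℤ)) := by
          rw [h5]; omega
        omega
      · rintro ⟨h2, h3⟩
        have h5 := lt_toA_iff hH j k h2 (by omega) hj x hx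
        refine ⟨⟨h2, by omega⟩, ?_⟩
        have h6 : ¬ ((x : ℤ) < toA n H j k) := by
          rw [← h5]; omega
        omega
    rw [h1, Nat.card_Icc]
    omega
  · rw [hH.2.2.2.2.2.2 j x (by omega)]

end Height

/-- Height functions correspond to monotone triangles with bottom row `1, ..., n`. -/
def mtHeightEquiv (n : ℕ) :
    {a : ℕ → ℕ → ℤ // IsMonotoneTriangle n a ∧
      ∀ t : Fin n, a n ((t : ℕ) + 1) = (fun t : Fin n => ((t : ℕ) : ℤ) + 1) t} ≃
    {H : ℕ → ℕ → ℤ // IsHeight n H} where
  toFun a := ⟨toH n a.1, isHeight_toH a.2.1 a.2.2⟩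
  invFun H := ⟨toA n H.1, isMT_toA H.2, toA_bottom H.2⟩
  left_inv a := Subtype.ext (toA_toH a.2.1 a.2.2)
  right_inv H := Subtype.ext (toH_toA H.2)

/-- The number of alternating sign matrices of size `n` equals the number of monotone triangles
with bottom row `1, ..., n`. -/
theorem mtCount_eq_asmCount (n : ℕ) :
    mtCount n (fun t => ((t : ℕ) : ℤ) + 1) = asmCount n := by
  rw [mtCount, asmCount]
  exact Nat.card_congr ((mtHeightEquiv n).trans (asmEquiv n).symm)

end Pool.Agent.Lib_MP_eb4e27_co
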