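import Mathlib

set_option autoImplicit false

namespace Pool.Agent.Lib_MP_eb4e27_co

/-- `IsMonotoneTriangle n a`: the integers `a j k` for `1 ≤ k ≤ j ≤ n` form a monotone triangle
with `n` rows (each row is strictly increasing, and `a (j+1) k ≤ a j k ≤ a (j+1) (k+1)` for
`1 ≤ k ≤ j < n`). Outside the index range `1 ≤ k ≤ j ≤ n` the array carries no data: there the
values are required to be `0`, so that monotone triangles correspond exactly to such `a`. -/
def IsMonotoneTriangle (n : ℕ) (a : ℕ → ℕ → ℤ) : Prop :=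
  (∀ j k, 1 ≤ k → k < j → j ≤ n → a j k < a j (k + 1)) ∧
  (∀ j k, 1 ≤ k → k ≤ j → j < n → a (j + 1) k ≤ a j k ∧ a j k ≤ a (j + 1) (k + 1)) ∧
  (∀ j k, ¬ (1 ≤ k ∧ k ≤ j ∧ j ≤ n) → a j k = 0)

/-- The number of monotone triangles with `n` rows and bottom row `(k 0, k 1, ..., k (n-1))`. -/
noncomputable def mtCount (n : ℕ) (k : Fin n → ℤ) : ℕ :=
  Nat.card {a : ℕ → ℕ → ℤ // IsMonotoneTriangle n a ∧ ∀ t : Fin n, a n ((t : ℕ) + 1) = k t}

/-- `IsMTPolynomial n P`: the polynomial `P` agrees with the number of monotone triangles with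
bottom row `k` on all strictly increasing integer tuples `k` of length `n`. -/
def IsMTPolynomial (n : ℕ) (P : MvPolynomial (Fin n) ℚ) : Prop :=
  ∀ k : Fin n → ℤ, StrictMono k → MvPolynomial.eval (fun t => (k t : ℚ)) P = (mtCount n k : ℚ)

/-- `AlternatesWithSumOne v`: the entries of `v` are `0`, `1` or `-1`, they sum to `1`, and the
nonzero entries alternate in sign. -/
def AlternatesWithSumOne {n : ℕ} (v : Fin n → ℤ) : Prop :=
  (∀ i, v i = 0 ∨ v i = 1 ∨ v i = -1) ∧ ∑ i, v i = 1 ∧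
  ∀ i j, i < j → v i ≠ 0 → v j ≠ 0 → (∀ l, i < l → l < j → v l = 0) → v j = - v i

/-- Alternating sign matrices. -/
def IsASM {n : ℕ} (M : Matrix (Fin n) (Fin n) ℤ) : Prop :=
  (∀ i, AlternatesWithSumOne (fun j => M i j)) ∧ (∀ j, AlternatesWithSumOne (fun i => M i j))

/-- The number of alternating sign matrices of size `n`. -/
noncomputable def asmCount (n : ℕ) : ℕ := Nat.card {M : Matrix (Fin n) (Fin n) ℤ // IsASM M}

end Pool.Agent.Lib_MP_eb4e27_co
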