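import Pool.Agent.Lib_MP_eb4e27_co.Alpha
import Pool.Agent.Lib_MP_eb4e27_co.Defs

set_option autoImplicit false

open Finset MvPolynomial

namespace Pool.Agent.Lib_MP_eb4e27_co

/-- monotone triangles with given bottom row -/
abbrev MTs (n : ℕ) (k : Fin n → ℤ) : Type :=
  {a : ℕ → ℕ → ℤ // IsMonotoneTriangle n a ∧ ∀ t : Fin n, a n ((t : ℕ) + 1) = k t}

/-- cast of a natural tuple -/
def zc {n : ℕ} (k : Fin n → ℕ) : Fin n → ℤ := fun t => (k t : ℤ)

/-- extend a triangle by a new bottom row -/
def extendRow (n : ℕ) (k : Fin (n + 1) → ℤ) (a : ℕ → ℕ → ℤ) : ℕ → ℕ → ℤ := fun j m =>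
  if j = n + 1 then (if h : 1 ≤ m ∧ m ≤ n + 1 then k ⟨m - 1, by omega⟩ else 0) else a j m

/-- remove the bottom row -/
def removeRow (n : ℕ) (a : ℕ → ℕ → ℤ) : ℕ → ℕ → ℤ := fun j m => if j ≤ n then a j m else 0

lemma strictMono_row {n : ℕ} {a : ℕ → ℕ → ℤ} (h : IsMonotoneTriangle n a) (j : ℕ) (hj : j ≤ n)
    (p q : ℕ) (hp : 1 ≤ p) (hpq : p < q) (hq : q ≤ j) : a j p < a j q := by
  induction q, hpq using Nat.le_induction with
  | base => exact h.1 j p hp (by omega) hj
  | succ m hm ih =>
    exact (ih (by omega)).trans (h.1 j m (by omega) (by omega) hj)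

lemma isMT_removeRow {n : ℕ} {a : ℕ → ℕ → ℤ} (h : IsMonotoneTriangle (n + 1) a) :
    IsMonotoneTriangle n (removeRow n a) := by
  obtain ⟨h1, h2, h3⟩ := h
  refine ⟨fun j m hm hmj hj => ?_, fun j m hm hmj hj => ?_, fun j m hjm => ?_⟩
  · simp only [removeRow, if_pos hj]
    exact h1 j m hm hmj (by omega)
  · simp only [removeRow, if_pos (show j + 1 ≤ n by omega), if_pos (show j ≤ n by omega)]
    exact h2 j m hm hmj (by omega)
  · simp only [removeRow]
    split_ifs with hj
    · exact h3 j m (by omega)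
    · rfl

lemma isMT_extendRow {n : ℕ} {k : Fin (n + 1) → ℤ} {a : ℕ → ℕ → ℤ} {l : Fin n → ℤ}
    (h : IsMonotoneTriangle n a) (hk : StrictMono k) (hl : ∀ t : Fin n, a n ((t : ℕ) + 1) = l t)
    (hkl : ∀ t : Fin n, k t.castSucc ≤ l t ∧ l t ≤ k t.succ) :
    IsMonotoneTriangle (n + 1) (extendRow n k a) := by
  obtain ⟨h1, h2, h3⟩ := h
  refine ⟨fun j m hm hmj hj => ?_, fun j m hm hmj hj => ?_, fun j m hjm => ?_⟩
  · simp only [extendRow]
    by_cases hjn : j = n + 1
    · subst hjn
      rw [if_pos rfl, if_pos rfl, dif_pos ⟨hm, by omega⟩, dif_pos ⟨by omega, by omega⟩]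
      apply hk
      rw [Fin.lt_def]
      simp only
      omega
    · rw [if_neg hjn, if_neg hjn]
      exact h1 j m hm hmj (by omega)
  · simp only [extendRow]
    by_cases hjn : j = n
    · subst hjn
      rw [if_pos rfl, if_neg (by omega), if_pos rfl, dif_pos ⟨hm, by omega⟩,
        dif_pos ⟨by omega, by omega⟩]
      have h4 := hl ⟨m - 1, by omega⟩
      have h5 := hkl ⟨m - 1, by omega⟩
      have h6 : m - 1 + 1 = m := by omega
      simp only [h6] at h4
      rw [h4]
      refine ⟨h5.1, ?_⟩
      have h7 : (⟨m - 1, by omega⟩ : Fin j).succ = ⟨m + 1 - 1, by omega⟩ := by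
        ext
        simp only [Fin.val_succ]
        omega
      rw [← h7]
      exact h5.2
    · rw [if_neg (by omega), if_neg (by omega), if_neg (by omega)]
      exact h2 j m hm hmj (by omega)
  · simp only [extendRow]
    by_cases hjn : j = n + 1
    · rw [if_pos hjn, dif_neg (by omega)]
    · rw [if_neg hjn]
      exact h3 j m (by omega)

lemma interlace_row {n : ℕ} {k : Fin (n + 1) → ℕ} {a : ℕ → ℕ → ℤ}
    (h : IsMonotoneTriangle (n + 1) a)
    (hk : ∀ t : Fin (n + 1), a (n + 1) ((t : ℕ) + 1) = zc k t) (t : Fin n) :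
    (k t.castSucc : ℤ) ≤ a n ((t : ℕ) + 1) ∧ a n ((t : ℕ) + 1) ≤ k t.succ := by
  have h1 := h.2.1 n ((t : ℕ) + 1) (by omega) (by omega) (by omega)
  have h2 := hk t.castSucc
  have h3 := hk t.succ
  simp only [Fin.val_castSucc, Fin.val_succ, zc] at h2 h3
  rw [h2, h3] at h1
  exact h1

/-- Decomposition of monotone triangles according to the last but one row. -/
noncomputable def mtEquiv (n : ℕ) (k : Fin (n + 1) → ℕ) (hk : StrictMono k) :
    MTs (n + 1) (zc k) ≃ Σ l : {l // l ∈ Int' k}, MTs n (zc l.1) where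
  toFun a := ⟨⟨fun t => (a.1 n ((t : ℕ) + 1)).toNat, by
      rw [mem_Int']
      have hint := interlace_row a.2.1 a.2.2
      refine ⟨fun t => ?_, fun s t hst => ?_⟩
      · have := hint t
        omega
      · have h1 := strictMono_row a.2.1 n (by omega) ((s : ℕ) + 1) ((t : ℕ) + 1) (by omega)
          (by have : (s : ℕ) < t := hst; omega) (by omega)
        have h2 := hint s
        have h3 := hint t
        simp only
        omega⟩,
    ⟨removeRow n a.1, isMT_removeRow a.2.1, fun t => by
      have h2 := interlace_row a.2.1 a.2.2 t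
      simp only [removeRow, zc, if_pos le_rfl]
      omega⟩⟩
  invFun p := ⟨extendRow n (zc k) p.2.1, by
    have hl := (mem_Int' k p.1.1).1 p.1.2
    refine ⟨isMT_extendRow p.2.2.1 (fun s t hst => ?_) p.2.2.2 (fun t => ?_), fun t => ?_⟩
    · have := hk hst
      simp only [zc]
      omega
    · have := hl.1 t
      simp only [zc]
      omega
    · simp only [extendRow]
      rw [if_pos trivial, dif_pos ⟨by omega, by omega⟩]
      congr 1⟩
  left_inv a := by
    apply Subtype.ext
    funext j m
    simp only [extendRow, removeRow]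
    by_cases hjn : j = n + 1
    · subst hjn
      rw [if_pos rfl]
      split_ifs with h
      · have := a.2.2 ⟨m - 1, by omega⟩
        have h6 : m - 1 + 1 = m := by omega
        simp only [h6] at this
        rw [this]
      · rw [a.2.1.2.2 (n + 1) m (by omega)]
    · rw [if_neg hjn]
      split_ifs with h
      · rfl
      · rw [a.2.1.2.2 j m (by omega)]
  right_inv p := by
    obtain ⟨⟨l, hl⟩, ⟨a, ha1, ha2⟩⟩ := p
    have hl' : (fun t : Fin n => (extendRow n (zc k) a n ((t : ℕ) + 1)).toNat) = l := by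
      funext t
      simp only [extendRow]
      rw [if_neg (by omega), ha2 t]
      simp [zc]
    have ha' : removeRow n (extendRow n (zc k) a) = a := by
      funext j m
      simp only [removeRow, extendRow]
      split_ifs with h1 h2 h3
      · omega
      · omega
      · rfl
      · rw [ha1.2.2 j m (by omega)]
    have key : ∀ (l₁ l₂ : {l // l ∈ Int' k}) (_ : l₁ = l₂) (a₁ : MTs n (zc l₁.1))
        (a₂ : MTs n (zc l₂.1)), a₁.1 = a₂.1 →
        (⟨l₁, a₁⟩ : Σ l : {l // l ∈ Int' k}, MTs n (zc l.1)) = ⟨l₂, a₂⟩ := by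
      rintro l₁ l₂ rfl a₁ a₂ h
      rw [Subtype.ext h]
    exact key _ _ (Subtype.ext hl') _ _ ha'

lemma finite_MTs : ∀ (n : ℕ) (k : Fin n → ℕ), StrictMono k → Finite (MTs n (zc k)) := by
  intro n
  induction n with
  | zero =>
    intro k _
    have : Subsingleton (MTs 0 (zc k)) := by
      constructor
      rintro ⟨a, ha⟩ ⟨b, hb⟩
      apply Subtype.ext
      funext j m
      show a j m = b j m
      rw [ha.1.2.2 j m (by omega), hb.1.2.2 j m (by omega)]
    infer_instance
  | succ n ih =>
    intro k hk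
    have : ∀ l : {l // l ∈ Int' k}, Finite (MTs n (zc l.1)) := fun l =>
      ih l.1 ((mem_Int' k l.1).1 l.2).2
    exact Finite.of_equiv _ (mtEquiv n k hk).symm

/-- The count of monotone triangles is given by `aa`. -/
lemma mtCount_eq_aa : ∀ (n : ℕ) (k : Fin n → ℕ), StrictMono k →
    (mtCount n (zc k) : ℚ) = aa k := by
  intro n
  induction n with
  | zero =>
    intro k _
    rw [aa_zero]
    have : Nat.card (MTs 0 (zc k)) = 1 := by
      rw [Nat.card_eq_one_iff_unique]
      constructor
      · constructor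
        rintro ⟨a, ha⟩ ⟨b, hb⟩
        apply Subtype.ext
        funext j m
        show a j m = b j m
        rw [ha.1.2.2 j m (by omega), hb.1.2.2 j m (by omega)]
      · refine ⟨⟨fun _ _ => 0, ⟨fun j m h1 h2 h3 => by omega, fun j m h1 h2 h3 => by omega,
          fun _ _ _ => rfl⟩, fun t => t.elim0⟩⟩
    rw [mtCount, this]
    norm_num
  | succ n ih =>
    intro k hk
    have hfin : ∀ l : {l // l ∈ Int' k}, Finite (MTs n (zc l.1)) := fun l =>
      finite_MTs n l.1 ((mem_Int' k l.1).1 l.2).2
    rw [mtCount, Nat.card_congr (mtEquiv n k hk), Nat.card_sigma, Nat.cast_sum, aa_rec]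
    · rw [← Finset.sum_coe_sort (Int' k) (fun l => aa l)]
      apply Finset.sum_congr rfl
      intro l _
      exact ih l.1 ((mem_Int' k l.1).1 l.2).2
    · intro h
      exact (hk (by rw [Fin.lt_def]; simp)).le
    · intro s t _ hst
      exact hk hst

/-- translation -/
def shift (n : ℕ) (c : ℤ) (a : ℕ → ℕ → ℤ) : ℕ → ℕ → ℤ := fun j m =>
  if 1 ≤ m ∧ m ≤ j ∧ j ≤ n then a j m + c else 0

lemma isMT_shift {n : ℕ} {a : ℕ → ℕ → ℤ} (c : ℤ) (h : IsMonotoneTriangle n a) :
    IsMonotoneTriangle n (shift n c a) := by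
  obtain ⟨h1, h2, h3⟩ := h
  refine ⟨fun j m hm hmj hj => ?_, fun j m hm hmj hj => ?_, fun j m hjm => ?_⟩
  · simp only [shift]
    rw [if_pos (by omega), if_pos (by omega)]
    have := h1 j m hm hmj hj
    omega
  · simp only [shift]
    rw [if_pos (by omega), if_pos (by omega), if_pos (by omega)]
    have := h2 j m hm hmj hj
    omega
  · simp only [shift]
    rw [if_neg hjm]

lemma shift_shift {n : ℕ} {a : ℕ → ℕ → ℤ} (c : ℤ) (h : IsMonotoneTriangle n a) :
    shift n (-c) (shift n c a) = a := by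
  funext j m
  simp only [shift]
  split_ifs with h1
  · ring
  · rw [h.2.2 j m h1]

lemma mtCount_shift (n : ℕ) (k : Fin n → ℤ) (c : ℤ) :
    mtCount n (fun t => k t + c) = mtCount n k := by
  rw [mtCount, mtCount]
  apply Nat.card_congr
  refine ⟨fun a => ⟨shift n (-c) a.1, isMT_shift _ a.2.1, fun t => ?_⟩,
    fun a => ⟨shift n c a.1, isMT_shift _ a.2.1, fun t => ?_⟩, fun a => ?_, fun a => ?_⟩
  · have := a.2.2 t
    simp only [shift]
    rw [if_pos (by omega), this]
    ring
  · have := a.2.2 t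
    simp only [shift]
    rw [if_pos (by omega), this]
  · apply Subtype.ext
    have := shift_shift (-c) a.2.1
    rw [neg_neg] at this
    exact this
  · apply Subtype.ext
    exact shift_shift c a.2.1

/-- Two polynomials agreeing on strictly increasing tuples of naturals are equal. -/
lemma poly_unique {n : ℕ} (P Q : MvPolynomial (Fin n) ℚ)
    (h : ∀ k : Fin n → ℕ, StrictMono k → eval (fun t => (k t : ℚ)) P =
      eval (fun t => (k t : ℚ)) Q) : P = Q := by
  apply MvPolynomial.funext_set (fun _ => Set.range (fun m : ℕ => (m : ℚ)))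
    (fun _ => Set.infinite_range_of_injective Nat.cast_injective)
  intro x hx
  have hx' : ∀ t, ∃ m : ℕ, (m : ℚ) = x t := fun t => hx t (Set.mem_univ _)
  choose y hy using hx'
  -- univariate polynomials along the direction (0, 1, ..., n-1)
  set L : MvPolynomial (Fin n) ℚ → Polynomial ℚ := fun P =>
    aeval (fun t : Fin n => Polynomial.C (x t) + Polynomial.C ((t : ℕ) : ℚ) * Polynomial.X) P with hL
  have hLe : ∀ (P : MvPolynomial (Fin n) ℚ) (T : ℚ), (L P).eval T =
      eval (fun t : Fin n => x t + (t : ℕ) * T) P := by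
    intro P T
    rw [hL]
    simp only
    rw [← Polynomial.coe_evalRingHom, aeval_def, eval₂_eq, map_sum, eval_eq]
    apply Finset.sum_congr rfl
    intro m _
    simp [Polynomial.eval_prod]
  have hLL : L P = L Q := by
    apply Polynomial.eq_of_infinite_eval_eq
    have hB : ∃ B : ℕ, ∀ t, y t ≤ B := ⟨∑ t, y t, fun t =>
      Finset.single_le_sum (f := y) (fun _ _ => Nat.zero_le _) (Finset.mem_univ t)⟩
    obtain ⟨B, hB⟩ := hB
    apply Set.Infinite.mono (s := Set.range (fun m : ℕ => ((B + 1 + m : ℕ) : ℚ)))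
    · rintro _ ⟨m, rfl⟩
      rw [Set.mem_ofPred_eq, hLe, hLe]
      have h1 := h (fun t => y t + (t : ℕ) * (B + 1 + m)) (by
        intro s t hst
        have h2 := hB s
        have h3 : (s : ℕ) + 1 ≤ t := hst
        simp only
        nlinarith)
      push_cast at h1
      simp only [hy] at h1
      push_cast
      exact h1
    · apply Set.infinite_range_of_injective
      intro a b hab
      simp only at hab
      have : B + 1 + a = B + 1 + b := by exact_mod_cast hab
      omega
  have h0 := congrArg (Polynomial.eval 0) hLL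
  rw [hLe, hLe] at h0
  simpa using h0

/-- Existence of the monotone triangle polynomial, with its values at natural tuples. -/
theorem exists_mtPoly (n : ℕ) : ∃ P : MvPolynomial (Fin n) ℚ, IsMTPolynomial n P ∧
    ∀ k : Fin n → ℕ, eval (fun t => (k t : ℚ)) P = aa k := by
  obtain ⟨P, hP⟩ := exists_poly n
  refine ⟨P, ?_, fun k => (hP k).symm⟩
  have hnat : ∀ k : Fin n → ℕ, StrictMono k →
      eval (fun t => (k t : ℚ)) P = (mtCount n (zc k) : ℚ) := by
    intro k hk
    rw [← hP, mtCount_eq_aa n k hk]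
  -- shift invariance
  have hshift : ∀ (c : ℕ), aeval (fun t => (X t + C (c : ℚ) : MvPolynomial (Fin n) ℚ)) P = P := by
    intro c
    apply poly_unique
    intro k hk
    have h1 : eval (fun t => (k t : ℚ)) (aeval (fun t => (X t + C (c : ℚ) :
        MvPolynomial (Fin n) ℚ)) P) = eval (fun t => ((k t + c : ℕ) : ℚ)) P := by
      rw [aeval_def, eval₂_eq, map_sum, eval_eq]
      apply Finset.sum_congr rfl
      intro m _
      simp
    rw [h1, hnat (fun t => k t + c) (fun s t hst => by have := hk hst; simp only; omega), hnat k hk]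
    have h2 : zc (fun t => k t + c) = fun t => zc k t + (c : ℤ) := by
      funext t
      simp [zc]
    rw [h2, mtCount_shift]
  intro k hk
  -- choose a shift making all entries natural
  obtain ⟨c, hc⟩ : ∃ c : ℕ, ∀ t, 0 ≤ k t + c := by
    refine ⟨∑ t, (k t).natAbs, fun t => ?_⟩
    have h1 : (k t).natAbs ≤ ∑ t, (k t).natAbs :=
      Finset.single_le_sum (f := fun t => (k t).natAbs) (fun _ _ => Nat.zero_le _)
        (Finset.mem_univ t)
    omega
  have h1 : eval (fun t => (k t : ℚ)) P = eval (fun t => (((k t + c).toNat : ℕ) : ℚ)) P := by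
    conv_lhs => rw [← hshift c]
    rw [aeval_def, eval₂_eq, map_sum, eval_eq]
    apply Finset.sum_congr rfl
    intro m _
    have h2 : ∀ t, (((k t + c).toNat : ℕ) : ℚ) = (k t : ℚ) + c := by
      intro t
      have h3 : (((k t + c).toNat : ℕ) : ℤ) = k t + c := Int.toNat_of_nonneg (hc t)
      have h4 : ((((k t + c).toNat : ℕ) : ℤ) : ℚ) = ((k t + c : ℤ) : ℚ) := by rw [h3]
      push_cast at h4
      rw [← h4]
    simp [h2]
  rw [h1, hnat _ (fun s t hst => by
    have h2 := hk hst
    have h3 := hc s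
    have h4 := hc t
    omega)]
  have h5 : zc (fun t => (k t + c).toNat) = fun t => k t + (c : ℤ) := by
    funext t
    simp only [zc]
    exact Int.toNat_of_nonneg (hc t)
  rw [h5, mtCount_shift]

lemma mtPoly_unique {n : ℕ} {P Q : MvPolynomial (Fin n) ℚ} (hP : IsMTPolynomial n P)
    (hQ : IsMTPolynomial n Q) : P = Q := by
  apply poly_unique
  intro k hk
  have h1 := hP (zc k) (fun s t hst => by have := hk hst; simp only [zc]; omega)
  have h2 := hQ (zc k) (fun s t hst => by have := hk hst; simp only [zc]; omega)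
  simp only [zc, Int.cast_natCast] at h1 h2
  rw [h1, h2]

/-- Main theorem in terms of monotone triangles. -/
theorem main_mt (n i : ℕ) (hi : i ≤ n) (P : MvPolynomial (Fin (i + n)) ℚ)
    (hP : IsMTPolynomial (i + n) P) :
    eval (fun t : Fin (i + n) => if (t : ℕ) < i then ((t : ℕ) + 1 : ℚ) else
      ((t : ℕ) - (i : ℕ) + 1 : ℚ)) P = (mtCount n (fun t => (t : ℕ) + 1) : ℚ) := by
  obtain ⟨Q, hQ, hQa⟩ := exists_mtPoly (i + n)
  rw [mtPoly_unique hP hQ]
  have h1 : (fun t : Fin (i + n) => if (t : ℕ) < i then ((t : ℕ) + 1 : ℚ) else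
      ((t : ℕ) - (i : ℕ) + 1 : ℚ)) = fun t => ((kk i (i + n) t + 1 : ℕ) : ℚ) := by
    funext t
    simp only [kk]
    split_ifs with h
    · push_cast; ring
    · push_cast [Nat.cast_sub (not_lt.1 h)]
      ring
  rw [h1, hQa, aa_kk n i hi, ← mtCount_eq_aa n _ (fun s t hst => by
    have : (s : ℕ) < t := hst
    omega)]
  congr 2

end Pool.Agent.Lib_MP_eb4e27_co
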