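import Pool.Agent.Lib_MP_eb4e27_co.Roots

set_option autoImplicit false

open Finset Equiv

namespace Pool.Agent.Lib_MP_eb4e27_co

variable {N M : ℕ}

lemma infinite_unit : (Set.Ioo (0 : ℚ) 1).Infinite := Set.Ioo_infinite (by norm_num)

/-- The wheel recursion for all points. -/
lemma wheel_rec (c : ℕ) (hc : 2 * c ≤ M) (z : Fin M → ℚ) (e : ℚ) (he : e ≠ 0) :
    e ^ (M + 1 + c) * PP (kk (c + 1) (M + 2)) (Fin.cons e (Fin.cons ((e - 1) / e) z :
      Fin (M + 1) → ℚ) : Fin (M + 2) → ℚ) =
      - ((e ^ 2 - e + 1) * (∏ t, ((1 + (e - 1) * z t) * ((e - z t) * (e * (1 - z t) - 1)))) *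
        PP (kk c M) z) := by
  set p : MvPolynomial (Fin M) ℚ := MvPolynomial.C (e ^ (M + 1 + c)) *
    PP (kk (c + 1) (M + 2)) (Fin.cons (MvPolynomial.C e)
      (Fin.cons (MvPolynomial.C ((e - 1) / e)) MvPolynomial.X :
      Fin (M + 1) → MvPolynomial (Fin M) ℚ) : Fin (M + 2) → MvPolynomial (Fin M) ℚ) with hp
  set q : MvPolynomial (Fin M) ℚ := - (MvPolynomial.C (e ^ 2 - e + 1) *
    (∏ t, ((1 + MvPolynomial.C (e - 1) * MvPolynomial.X t) *
      ((MvPolynomial.C e - MvPolynomial.X t) *
        (MvPolynomial.C e * (1 - MvPolynomial.X t) - 1)))) *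
        PP (kk c M) MvPolynomial.X) with hq
  have hpe : ∀ x, MvPolynomial.eval x p = e ^ (M + 1 + c) * PP (kk (c + 1) (M + 2))
      (Fin.cons e (Fin.cons ((e - 1) / e) x : Fin (M + 1) → ℚ) : Fin (M + 2) → ℚ) := by
    intro x
    rw [hp, map_mul, MvPolynomial.eval_C, map_PP]
    congr 2
    ext t
    refine Fin.cases ?_ (fun t' => ?_) t
    · simp
    · refine Fin.cases ?_ (fun t'' => ?_) t'
      · simp
      · simp
  have hqe : ∀ x, MvPolynomial.eval x q =
      - ((e ^ 2 - e + 1) * (∏ t, ((1 + (e - 1) * x t) * ((e - x t) * (e * (1 - x t) - 1)))) *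
        PP (kk c M) x) := by
    intro x
    rw [hq, map_neg, map_mul, map_mul, MvPolynomial.eval_C, map_PP, map_prod]
    congr 2
    · congr 1
      apply Finset.prod_congr rfl
      intro t _
      simp
    · congr 1
      ext t
      simp
  have hpq : p = q := by
    apply MvPolynomial.funext_set (fun _ => Set.Ioo (0 : ℚ) 1) (fun _ => infinite_unit)
    intro x hx
    rw [hpe, hqe]
    exact wheel_rec_unit c hc x (fun t => (hx t (Set.mem_univ _)).1)
      (fun t => (hx t (Set.mem_univ _)).2) e he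
  rw [← hpe, hpq, hqe]

/-- The defect of the identity. -/
def GG (c N : ℕ) (f : Fin N → ℚ) : ℚ :=
  PP (kk (c + 1) (N + 1)) (Fin.cons 1 f : Fin (N + 1) → ℚ) - (∏ s, (f s - 1)) * PP (kk c N) f

lemma GG_comp_perm (c N : ℕ) (f : Fin N → ℚ) (π : Perm (Fin N)) :
    GG c N (f ∘ π) = ((Perm.sign π : ℤ) : ℚ) * GG c N f := by
  rw [GG, GG, PP_cons_comp_perm, PP_comp_perm]
  have : (∏ s, ((f ∘ π) s - 1)) = ∏ s, (f s - 1) := Equiv.prod_comp π (fun s => f s - 1)
  rw [this]
  ring

lemma PP_swap {R : Type*} [CommRing R] (k : Fin (N + 2) → ℕ) (a b : R) (g : Fin N → R) :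
    PP k (Fin.cons a (Fin.cons b g : Fin (N + 1) → R) : Fin (N + 2) → R) =
      - PP k (Fin.cons b (Fin.cons a g : Fin (N + 1) → R) : Fin (N + 2) → R) := by
  have h : (Fin.cons a (Fin.cons b g : Fin (N + 1) → R) : Fin (N + 2) → R) =
      (Fin.cons b (Fin.cons a g : Fin (N + 1) → R) : Fin (N + 2) → R) ∘ (swap 0 1) := by
    ext t
    refine Fin.cases ?_ (fun t' => ?_) t
    · simp
    · refine Fin.cases ?_ (fun t'' => ?_) t'
      · simp
      · simp only [Function.comp_apply, Fin.cons_succ]
        rw [swap_apply_of_ne_of_ne (Fin.succ_ne_zero _)]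
        · simp
        · rw [← Fin.succ_zero_eq_one]
          intro hh
          exact Fin.succ_ne_zero _ (Fin.succ_injective _ hh)
  rw [h, PP_comp_perm, Perm.sign_swap (by simp)]
  simp

lemma PP_swap' {R : Type*} [CommRing R] (k : Fin (N + 3) → ℕ) (x a b : R) (g : Fin N → R) :
    PP k (Fin.cons x (Fin.cons a (Fin.cons b g : Fin (N + 1) → R) : Fin (N + 2) → R) :
        Fin (N + 3) → R) =
      - PP k (Fin.cons x (Fin.cons b (Fin.cons a g : Fin (N + 1) → R) : Fin (N + 2) → R) :
        Fin (N + 3) → R) := by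
  have h : (Fin.cons a (Fin.cons b g : Fin (N + 1) → R) : Fin (N + 2) → R) =
      (Fin.cons b (Fin.cons a g : Fin (N + 1) → R) : Fin (N + 2) → R) ∘ (swap 0 1) := by
    ext t
    refine Fin.cases ?_ (fun t' => ?_) t
    · simp
    · refine Fin.cases ?_ (fun t'' => ?_) t'
      · simp
      · simp only [Function.comp_apply, Fin.cons_succ]
        rw [swap_apply_of_ne_of_ne (Fin.succ_ne_zero _)]
        · simp
        · rw [← Fin.succ_zero_eq_one]
          intro hh
          exact Fin.succ_ne_zero _ (Fin.succ_injective _ hh)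
  rw [h, PP_cons_comp_perm, Perm.sign_swap (by simp)]
  simp

/-- Base case. -/
lemma GG_zero (N : ℕ) (f : Fin N → ℚ) : GG 0 N f = 0 := by
  rw [GG, PP_cons_one_eq_sum]
  · have h1 : Int' (kk (0 + 1) (N + 1)) = {kk 0 N} := by
      ext l
      rw [mem_Int', Finset.mem_singleton]
      constructor
      · rintro ⟨h1, h2⟩
        have hge : ∀ n (hn : n < N), n ≤ l ⟨n, hn⟩ := by
          intro n
          induction n with
          | zero => intro _; exact Nat.zero_le _
          | succ n ih =>
            intro hn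
            have h3 := ih (by omega)
            have h4 : l ⟨n, by omega⟩ < l ⟨n + 1, hn⟩ := h2 (by simp [Fin.lt_def])
            omega
        ext s
        have h5 := (h1 s).2
        have h6 := hge s s.isLt
        simp only [kk, Fin.val_succ, zero_add, Fin.eta] at h5 h6 ⊢
        split_ifs at h5 ⊢ <;> omega
      · rintro rfl
        refine ⟨fun s => ?_, fun s t hst => ?_⟩
        · simp only [kk, Fin.val_castSucc, Fin.val_succ]
          split_ifs <;> omega
        · have : (s : ℕ) < t := hst
          simp only [kk]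
          split_ifs <;> omega
    rw [h1, Finset.sum_singleton]
    ring
  · intro h
    simp [kk]
  · intro s t hs hst
    have h1 : 0 < (s : ℕ) := hs
    have h2 : (s : ℕ) < t := hst
    simp only [kk]
    split_ifs <;> omega

/-- The defect vanishes at wheel points. -/
lemma GG_wheel (c : ℕ) (hc : 2 * c + 1 ≤ M) (ih : ∀ z : Fin M → ℚ, GG c M z = 0)
    (e : ℚ) (he : e ≠ 0) (z : Fin M → ℚ) :
    GG (c + 1) (M + 2) (Fin.cons e (Fin.cons ((e - 1) / e) z : Fin (M + 1) → ℚ)) = 0 := by
  have h1 := wheel_rec (M := M + 1) (c + 1) (by omega) (Fin.cons 1 z : Fin (M + 1) → ℚ) e he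
  have h2 := wheel_rec (M := M) c (by omega) z e he
  have h3 := ih z
  rw [GG] at h3
  have h4 : PP (kk (c + 1) (M + 1)) (Fin.cons 1 z : Fin (M + 1) → ℚ) =
      (∏ s, (z s - 1)) * PP (kk c M) z := by linarith
  rw [h4, Fin.prod_univ_succ] at h1
  simp only [Fin.cons_zero, Fin.cons_succ] at h1
  rw [GG, PP_swap, PP_swap']
  have h5 : (∏ s : Fin (M + 2), ((Fin.cons e (Fin.cons ((e - 1) / e) z : Fin (M + 1) → ℚ) :
      Fin (M + 2) → ℚ) s - 1)) = (e - 1) * (((e - 1) / e - 1) * ∏ s, (z s - 1)) := by
    rw [Fin.prod_univ_succ, Fin.prod_univ_succ]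
    simp
  rw [h5]
  have h6 : e ^ (M + 2 + (c + 1)) ≠ 0 := pow_ne_zero _ he
  apply mul_left_cancel₀ h6
  rw [mul_zero]
  have h7 : e * ((e - 1) / e - 1) = -1 := by field_simp; ring
  have h8 : e ^ (M + 2 + (c + 1)) = e ^ (M + 1 + c) * e * e := by
    rw [show M + 2 + (c + 1) = (M + 1 + c) + 1 + 1 by ring, pow_succ, pow_succ]
  have h9 : e ^ (M + 1 + 1 + (c + 1)) = e ^ (M + 2 + (c + 1)) := by ring_nf
  rw [h9] at h1
  rw [neg_neg, mul_sub, h1]
  have h10 : e ^ (M + 2 + (c + 1)) * ((e - 1) * (((e - 1) / e - 1) * ∏ s, (z s - 1)) *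
      PP (kk (c + 1) (M + 2)) (Fin.cons e (Fin.cons ((e - 1) / e) z : Fin (M + 1) → ℚ) :
        Fin (M + 2) → ℚ)) =
      (e * (e - 1) * ∏ s, (z s - 1)) * (e * ((e - 1) / e - 1)) * (e ^ (M + 1 + c) *
      PP (kk (c + 1) (M + 2)) (Fin.cons e (Fin.cons ((e - 1) / e) z : Fin (M + 1) → ℚ) :
        Fin (M + 2) → ℚ)) := by
    rw [h8]; ring
  rw [h10, h2, h7]
  ring

/-- The defect vanishes as soon as two entries form a wheel pair. -/
lemma GG_wheel' (c : ℕ) (hc : 2 * c + 1 ≤ M) (ih : ∀ z : Fin M → ℚ, GG c M z = 0)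
    (f : Fin (M + 2) → ℚ) (a b : Fin (M + 2)) (hab : a ≠ b) (ha : f a ≠ 0)
    (hb : f b = (f a - 1) / f a) : GG (c + 1) (M + 2) f = 0 := by
  set π : Perm (Fin (M + 2)) := swap 0 a * swap 1 (swap 0 a b) with hπ
  have hc0 : swap 0 a b ≠ 0 := by
    intro h
    have h1 : swap 0 a (swap 0 a b) = swap 0 a 0 := congrArg _ h
    rw [swap_apply_self, swap_apply_left] at h1
    exact hab h1.symm
  have hπ0 : π 0 = a := by
    rw [hπ, Perm.mul_apply, swap_apply_of_ne_of_ne (by simp) hc0.symm, swap_apply_left]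
  have hπ1 : π 1 = b := by
    rw [hπ, Perm.mul_apply, swap_apply_left, swap_apply_self]
  have h1 : f ∘ π = Fin.cons (f a) (Fin.cons ((f a - 1) / f a)
      (fun t : Fin M => f (π t.succ.succ)) : Fin (M + 1) → ℚ) := by
    ext t
    refine Fin.cases ?_ (fun t' => ?_) t
    · simp [hπ0]
    · refine Fin.cases ?_ (fun t'' => ?_) t'
      · simp only [Function.comp_apply, Fin.succ_zero_eq_one, hπ1, hb]
        rfl
      · simp
  have h2 := GG_comp_perm (c + 1) (M + 2) f π
  rw [h1, GG_wheel c hc ih (f a) ha] at h2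
  rcases mul_eq_zero.1 h2.symm with h3 | h3
  · exfalso
    rcases Int.units_eq_one_or (Perm.sign π) with h4 | h4 <;> simp [h4] at h3
  · exact h3

open Polynomial in
lemma natDegree_PP (k : Fin (N + 1) → ℕ) (B : ℕ) (hB : ∀ s, k s ≤ B) (z : Fin N → ℚ) :
    natDegree (PP k (Fin.cons X (fun t => C (z t)) : Fin (N + 1) → ℚ[X])) ≤ B + N := by
  rw [PP, AS_cons]
  apply natDegree_sum_le_of_forall_le
  intro r _
  have h1 : ((-1 : ℚ[X]) ^ (r : ℕ)) = C ((-1) ^ (r : ℕ)) := by simp
  rw [h1]
  refine (natDegree_C_mul_le _ _).trans ?_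
  apply natDegree_AS_le
  intro σ
  have h2 : mon k (r.insertNth X ((fun t => C (z t)) ∘ σ) : Fin (N + 1) → ℚ[X]) *
      Wp (r.insertNth X ((fun t => C (z t)) ∘ σ) : Fin (N + 1) → ℚ[X]) =
      (X ^ k r * ∏ s : Fin N, if s.castSucc < r then W (C (z (σ s))) X else W X (C (z (σ s)))) *
        C ((∏ s, z (σ s) ^ k (r.succAbove s)) * Wp (fun s => z (σ s))) := by
    rw [mon_insertNth, Wp_insertNth, C_mul, map_prod, map_Wp]
    simp only [C_pow, Function.comp_def]
    ring
  rw [h2]
  refine (natDegree_mul_C_le _ _).trans ?_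
  refine natDegree_mul_le.trans ?_
  rw [natDegree_X_pow]
  apply add_le_add (hB r)
  refine (natDegree_prod_le _ _).trans ?_
  calc _ ≤ ∑ _t : Fin N, 1 := by
        apply Finset.sum_le_sum
        intro t _
        split_ifs
        · have : (W (C (z (σ t))) X : ℚ[X]) = C (z (σ t)) * X + C (1 - z (σ t)) := by
            rw [W, C_sub, C_1]; ring
          rw [this]
          exact natDegree_linear_le
        · have : (W X (C (z (σ t))) : ℚ[X]) = C (z (σ t) - 1) * X + C 1 := by
            rw [W, C_sub, C_1]; ring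
          rw [this]
          exact natDegree_linear_le
    _ = N := by simp

open Polynomial in
/-- The defect vanishes on the unit cube. -/
lemma GG_unit (c : ℕ) (hc : 2 * c + 1 ≤ M) (ih : ∀ z : Fin M → ℚ, GG c M z = 0)
    (f : Fin (M + 2) → ℚ) (hf0 : ∀ t, 0 < f t) (hf1 : ∀ t, f t < 1) :
    GG (c + 1) (M + 2) f = 0 := by
  set f' : Fin (M + 1) → ℚ := Fin.tail f with hf'
  have hff : f = Fin.cons (f 0) f' := (Fin.cons_self_tail f).symm
  have hf'0 : ∀ t, 0 < f' t := fun t => hf0 t.succ
  have hf'1 : ∀ t, f' t < 1 := fun t => hf1 t.succ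
  by_cases hinj : Function.Injective f'
  · set D : ℚ[X] := PP (kk (c + 1 + 1) (M + 2 + 1))
      (Fin.cons 1 (Fin.cons X (fun t => C (f' t)) : Fin (M + 2) → ℚ[X]) : Fin (M + 3) → ℚ[X]) -
      (X - 1) * C (∏ s, (f' s - 1)) *
        PP (kk (c + 1) (M + 2)) (Fin.cons X (fun t => C (f' t)) : Fin (M + 2) → ℚ[X]) with hD
    have hDev : ∀ a : ℚ, D.eval a = GG (c + 1) (M + 2) (Fin.cons a f') := by
      intro a
      have e1 : ∀ (k : Fin (M + 2) → ℕ), (PP k
          (Fin.cons X (fun t => C (f' t)) : Fin (M + 2) → ℚ[X])).eval a =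
          PP k (Fin.cons a f' : Fin (M + 2) → ℚ) := by
        intro k
        have := map_PP (Polynomial.evalRingHom a) k
          (Fin.cons X (fun t => C (f' t)) : Fin (M + 2) → ℚ[X])
        simp only [coe_evalRingHom] at this
        rw [this]
        congr 1
        ext t
        refine Fin.cases ?_ (fun t' => ?_) t <;> simp
      have e2 : ∀ (k : Fin (M + 3) → ℕ), (PP k
          (Fin.cons 1 (Fin.cons X (fun t => C (f' t)) : Fin (M + 2) → ℚ[X]) :
            Fin (M + 3) → ℚ[X])).eval a =
          PP k (Fin.cons 1 (Fin.cons a f' : Fin (M + 2) → ℚ) : Fin (M + 3) → ℚ) := by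
        intro k
        have := map_PP (Polynomial.evalRingHom a) k
          (Fin.cons 1 (Fin.cons X (fun t => C (f' t)) : Fin (M + 2) → ℚ[X]) :
            Fin (M + 3) → ℚ[X])
        simp only [coe_evalRingHom] at this
        rw [this]
        congr 1
        ext t
        refine Fin.cases ?_ (fun t' => ?_) t
        · simp
        · refine Fin.cases ?_ (fun t'' => ?_) t' <;> simp
      have e3 : (∏ s : Fin (M + 2), ((Fin.cons a f' : Fin (M + 2) → ℚ) s - 1)) =
          (a - 1) * ∏ s, (f' s - 1) := by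
        rw [Fin.prod_univ_succ]
        simp
      rw [hD, eval_sub, eval_mul, eval_mul, eval_C, e1, e2, GG, e3]
      simp
    have hDdeg : natDegree D ≤ 2 * M + 2 := by
      rw [hD]
      refine (natDegree_sub_le _ _).trans (max_le ?_ ?_)
      · rw [PP_swap, natDegree_neg]
        have h1 : (Fin.cons 1 (fun t => C (f' t)) : Fin (M + 2) → ℚ[X]) =
            fun t => C ((Fin.cons 1 f' : Fin (M + 2) → ℚ) t) := by
          ext1 t
          refine Fin.cases ?_ (fun t' => ?_) t <;> simp
        rw [h1]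
        refine (natDegree_PP _ M ?_ _).trans (by omega)
        intro s
        have := s.isLt
        simp only [kk]
        split_ifs <;> omega
      · refine natDegree_mul_le.trans ?_
        have h2 : natDegree (((X : ℚ[X]) - 1) * C (∏ s, (f' s - 1))) ≤ 1 := by
          refine (natDegree_mul_C_le _ _).trans ?_
          rw [← C_1]
          exact natDegree_lin1 1
        have h3 : natDegree (PP (kk (c + 1) (M + 2))
            (Fin.cons X (fun t => C (f' t)) : Fin (M + 2) → ℚ[X])) ≤ M + (M + 1) := by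
          refine natDegree_PP _ M ?_ _
          intro s
          have := s.isLt
          simp only [kk]
          split_ifs <;> omega
        omega
    have hzero : D = 0 := by
      apply eq_zero_of_natDegree_lt_card_of_eval_eq_zero D
        (ι := Option (Fin (M + 1) ⊕ Fin (M + 1)))
        (f := fun o => match o with
          | none => 1
          | some (Sum.inl t) => f' t
          | some (Sum.inr t) => (f' t - 1) / f' t)
      · have hneg : ∀ t, (f' t - 1) / f' t < 0 := by
          intro t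
          apply div_neg_of_neg_of_pos
          · linarith [hf'1 t]
          · exact hf'0 t
        rintro (_ | (t | t)) (_ | (s | s)) h <;> simp only at h
        · rfl
        · exact absurd h (hf'1 s).ne'
        · exact absurd h (by linarith [hneg s] : (f' s - 1) / f' s < 1).ne'
        · exact absurd h (hf'1 t).ne
        · rw [hinj h]
        · exact absurd h (by linarith [hneg s, hf'0 t] : (f' s - 1) / f' s < f' t).ne'
        · exact absurd h (by linarith [hneg t] : (f' t - 1) / f' t < 1).ne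
        · exact absurd h (by linarith [hneg t, hf'0 s] : (f' t - 1) / f' t < f' s).ne
        · have h2 := (hf'0 t).ne'
          have h3 := (hf'0 s).ne'
          have : f' t = f' s := by
            field_simp at h
            linarith
          rw [hinj this]
      · rintro (_ | (t | t))
        · simp only
          rw [hDev, GG, PP_eq_zero _ _ (i := 0) (j := 1) (by simp) (by
            have : (1 : Fin (M + 2 + 1)) = Fin.succ 0 := rfl
            rw [this, Fin.cons_succ, Fin.cons_zero, Fin.cons_zero]), Fin.prod_univ_succ]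
          simp
        · simp only
          rw [hDev, GG, PP_eq_zero (kk (c + 1) (M + 2)) _ (i := 0) (j := t.succ)
            (Fin.succ_ne_zero _).symm (by simp), PP_eq_zero _ _ (i := Fin.succ 0)
            (j := t.succ.succ)]
          · ring
          · intro hh
            exact (Fin.succ_ne_zero _).symm (Fin.succ_injective _ hh)
          · simp
        · simp only
          rw [hDev]
          apply GG_wheel' c hc ih _ t.succ 0 (Fin.succ_ne_zero _)
          · simpa using (hf'0 t).ne'
          · simp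
      · simp only [Fintype.card_option, Fintype.card_sum, Fintype.card_fin]
        omega
    rw [hff, ← hDev, hzero, eval_zero]
  · rw [Function.Injective] at hinj
    push Not at hinj
    obtain ⟨s, t, hst, hne⟩ := hinj
    rw [GG, PP_eq_zero (kk (c + 1) (M + 2)) _ (i := s.succ) (j := t.succ)
      (fun h => hne (Fin.succ_injective _ h)) hst, PP_eq_zero _ _ (i := s.succ.succ)
      (j := t.succ.succ)]
    · ring
    · intro h
      exact hne (Fin.succ_injective _ (Fin.succ_injective _ h))
    · exact hst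

/-- The identity. -/
theorem GG_eq_zero : ∀ (c N : ℕ), 2 * c + 1 ≤ N → ∀ f : Fin N → ℚ, GG c N f = 0 := by
  intro c
  induction c with
  | zero => intro N _ f; exact GG_zero N f
  | succ c ih =>
    intro N hN f
    obtain ⟨M, rfl⟩ : ∃ M, N = M + 2 := ⟨N - 2, by omega⟩
    have hc : 2 * c + 1 ≤ M := by omega
    have ih' := ih M hc
    set p : MvPolynomial (Fin (M + 2)) ℚ := PP (kk (c + 1 + 1) (M + 2 + 1))
      (Fin.cons 1 MvPolynomial.X : Fin (M + 2 + 1) → MvPolynomial (Fin (M + 2)) ℚ) -
      (∏ s, (MvPolynomial.X s - 1)) * PP (kk (c + 1) (M + 2)) MvPolynomial.X with hp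
    have hpe : ∀ x, MvPolynomial.eval x p = GG (c + 1) (M + 2) x := by
      intro x
      rw [hp, map_sub, map_mul, map_PP, map_PP, map_prod, GG]
      congr 2
      · ext t
        refine Fin.cases ?_ (fun t' => ?_) t <;> simp
      · apply Finset.prod_congr rfl
        intro s _
        simp
      · congr 1
        ext t
        simp
    have hp0 : p = 0 := by
      apply MvPolynomial.funext_set (fun _ => Set.Ioo (0 : ℚ) 1) (fun _ => infinite_unit)
      intro x hx
      rw [hpe, map_zero]
      exact GG_unit c hc ih' x (fun t => (hx t (Set.mem_univ _)).1)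
        (fun t => (hx t (Set.mem_univ _)).2)
    rw [← hpe, hp0, map_zero]

end Pool.Agent.Lib_MP_eb4e27_co
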