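import Pool.Agent.Lib_MP_eb4e27_co.AntiSym

set_option autoImplicit false

open Finset Equiv

namespace Pool.Agent.Lib_MP_eb4e27_co

variable {R : Type*} [CommRing R] {N : ℕ}

/-- The two-variable weight. -/
def W (a b : R) : R := 1 - a + a * b

/-- Product of the two-variable weights over all pairs. -/
def Wp (h : Fin N → R) : R := ∏ p, ∏ q, if p < q then W (h p) (h q) else 1

/-- monomial -/
def mon (k : Fin N → ℕ) (h : Fin N → R) : R := ∏ s, h s ^ k s

/-- the antisymmetrised function attached to an exponent sequence -/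
def PP (k : Fin N → ℕ) (f : Fin N → R) : R := AS (fun h => mon k h * Wp h) f

lemma Wp_insertNth (r : Fin (N + 1)) (a : R) (h : Fin N → R) :
    Wp (r.insertNth a h : Fin (N + 1) → R) =
      (∏ s : Fin N, if s.castSucc < r then W (h s) a else W a (h s)) * Wp h := by
  rw [Wp, Fin.prod_univ_succAbove _ r, Fin.prod_univ_succAbove _ r]
  simp only [lt_irrefl, if_false, one_mul, Fin.insertNth_apply_same,
    Fin.insertNth_apply_succAbove]
  have h1 : ∀ i : Fin N, (∏ q : Fin (N + 1), if r.succAbove i < q then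
      W (h i) ((r.insertNth a h : Fin (N + 1) → R) q) else 1) =
      (if r.succAbove i < r then W (h i) a else 1) *
        ∏ j : Fin N, if i < j then W (h i) (h j) else 1 := by
    intro i
    rw [Fin.prod_univ_succAbove _ r]
    simp only [Fin.insertNth_apply_same, Fin.insertNth_apply_succAbove,
      Fin.succAbove_lt_succAbove_iff]
  simp only [h1]
  rw [Finset.prod_mul_distrib, ← mul_assoc, ← Finset.prod_mul_distrib]
  congr 1
  apply Finset.prod_congr rfl
  intro s _
  by_cases hs : s.castSucc < r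
  · have h2 : r.succAbove s < r := by
      rw [Fin.succAbove_lt_iff_castSucc_lt]; exact hs
    have h3 : ¬ r < r.succAbove s := not_lt.2 h2.le
    simp [hs, h2, h3]
  · have h2 : r < r.succAbove s := by
      rw [Fin.lt_succAbove_iff_le_castSucc]; exact not_lt.1 hs
    have h3 : ¬ r.succAbove s < r := not_lt.2 h2.le
    simp [hs, h2, h3]

lemma Wp_cons (a : R) (h : Fin N → R) :
    Wp (Fin.cons a h : Fin (N + 1) → R) = (∏ s : Fin N, W a (h s)) * Wp h := by
  rw [← Fin.insertNth_zero', Wp_insertNth]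
  simp

lemma mon_insertNth (k : Fin (N + 1) → ℕ) (r : Fin (N + 1)) (a : R) (h : Fin N → R) :
    mon k (r.insertNth a h : Fin (N + 1) → R) = a ^ k r * ∏ s : Fin N, h s ^ k (r.succAbove s) := by
  rw [mon, Fin.prod_univ_succAbove _ r]
  simp

lemma mon_cons (k : Fin (N + 1) → ℕ) (a : R) (h : Fin N → R) :
    mon k (Fin.cons a h : Fin (N + 1) → R) = a ^ k 0 * mon (Fin.tail k) h := by
  rw [mon, Fin.prod_univ_succ]
  simp [mon, Fin.tail]

/-- put the function `C` in front as a new first slot -/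
def tens (C : R → R) (Ψ : (Fin N → R) → R) : (Fin (N + 1) → R) → R :=
  fun h => C (h 0) * (∏ s : Fin N, W (h 0) (h s.succ)) * Ψ (Fin.tail h)

lemma AS_tens (C : R → R) (Ψ : (Fin N → R) → R) (f : Fin (N + 1) → R) :
    AS (tens C Ψ) f = ∑ j : Fin (N + 1), (-1) ^ (j : ℕ) *
      (C (f j) * (∏ s : Fin N, W (f j) (f (j.succAbove s))) * AS Ψ (j.removeNth f)) := by
  rw [AS_slot]
  apply Finset.sum_congr rfl
  intro j _
  congr 1
  have := AS_symm_mul (fun h : Fin N → R => C (f j) * ∏ s : Fin N, W (f j) (h s)) Ψ (by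
    intro h σ
    simp only [Function.comp_apply]
    congr 1
    exact Equiv.prod_comp σ (fun s => W (f j) (h s))) (j.removeNth f)
  simp only [Fin.removeNth_apply] at this
  rw [← this]
  apply AS_congr
  intro x
  simp [tens]

lemma tens_congr (C : R → R) {Ψ Φ : (Fin N → R) → R} (h : ∀ f, AS Ψ f = AS Φ f)
    (f : Fin (N + 1) → R) : AS (tens C Ψ) f = AS (tens C Φ) f := by
  simp only [AS_tens, h]

lemma tens_cons (C : R → R) (Ψ : (Fin N → R) → R) (a : R) (h : Fin N → R) :
    tens C Ψ (Fin.cons a h) = C a * (∏ s : Fin N, W a (h s)) * Ψ h := by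
  simp [tens]

lemma AS_tens2_zero (F : R → R → R) (hF : ∀ a b, F a b * W a b = F b a * W b a)
    (Ψ : (Fin N → R) → R) (f : Fin (N + 2) → R) :
    AS (fun h : Fin (N + 2) → R => F (h 0) (h 1) * (∏ s : Fin (N + 1), W (h 0) (h s.succ)) *
      (∏ s : Fin N, W (h 1) (h s.succ.succ)) * Ψ (fun s => h s.succ.succ)) f = 0 := by
  apply AS_eq_zero_of_symm (i := 0) (j := 1) (by simp)
  intro h
  have h0 : (h ∘ swap 0 1) 0 = h 1 := by simp
  have h1 : (h ∘ swap 0 1) 1 = h 0 := by simp
  have hs : ∀ s : Fin N, (h ∘ swap 0 1) s.succ.succ = h s.succ.succ := by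
    intro s
    simp only [Function.comp_apply]
    rw [swap_apply_of_ne_of_ne (Fin.succ_ne_zero _)]
    rw [← Fin.succ_zero_eq_one]
    intro hh
    exact Fin.succ_ne_zero _ (Fin.succ_injective _ hh)
  simp only [Fin.prod_univ_succ (n := N), Fin.succ_zero_eq_one, h0, h1, hs]
  linear_combination (∏ i : Fin N, W (h 1) (h i.succ.succ)) * (∏ i : Fin N, W (h 0) (h i.succ.succ))
    * Ψ (fun s => h s.succ.succ) * (hF (h 1) (h 0))

/-- The local relation. -/
lemma AS_rho (κ : ℕ) (Ψ : (Fin N → R) → R) (f : Fin (N + 2) → R) :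
    AS (tens (fun a => (a - 1) * a ^ κ) (tens (fun a => (a - 1) * a ^ κ) Ψ)) f =
      - AS (tens (fun a => a ^ (κ + 1)) (tens (fun a => a ^ κ) Ψ)) f := by
  rw [eq_neg_iff_add_eq_zero, ← AS_add]
  rw [← AS_tens2_zero (fun a b => (a * b) ^ κ * W b a) (fun a b => by ring) Ψ f]
  apply AS_congr
  intro x
  have h1 : (0 : Fin (N + 1)).succ = 1 := rfl
  have h2 : Fin.tail (Fin.tail x) = fun s : Fin N => x s.succ.succ := rfl
  simp only [tens, h2]
  simp only [Fin.tail, W, h1]
  ring

/-- Strictly increasing sequences interlacing with `k`. -/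
def Int' (k : Fin (N + 1) → ℕ) : Finset (Fin N → ℕ) :=
  (Fintype.piFinset fun s : Fin N => Finset.Icc (k s.castSucc) (k s.succ)).filter StrictMono

lemma mem_Int' (k : Fin (N + 1) → ℕ) (l : Fin N → ℕ) :
    l ∈ Int' k ↔ (∀ s : Fin N, k s.castSucc ≤ l s ∧ l s ≤ k s.succ) ∧ StrictMono l := by
  simp [Int', Fintype.mem_piFinset]

lemma strictMono_cons {a : ℕ} {l : Fin N → ℕ} :
    StrictMono (Fin.cons a l : Fin (N + 1) → ℕ) ↔ (∀ s, a < l s) ∧ StrictMono l := by
  constructor
  · intro h
    refine ⟨fun s => ?_, fun s t hst => ?_⟩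
    · have := h (Fin.succ_pos s)
      simpa using this
    · have := h (Fin.succ_lt_succ_iff.2 hst)
      simpa using this
  · rintro ⟨h1, h2⟩ s t hst
    revert hst
    refine Fin.cases ?_ (fun s' => ?_) s <;> refine Fin.cases ?_ (fun t' => ?_) t
    · intro h; exact absurd h (lt_irrefl _)
    · intro _; simpa using h1 t'
    · intro h; exact absurd h (by simp)
    · intro h
      simpa using h2 (Fin.succ_lt_succ_iff.1 h)

/-- first recursion for sums over interlacing sequences -/
lemma sum_Int'_one (k : Fin 2 → ℕ) (G : (Fin 1 → ℕ) → R) :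
    ∑ l ∈ Int' k, G l = ∑ a ∈ Finset.Icc (k 0) (k 1), ∑ l ∈ Int' (Fin.tail k), G (Fin.cons a l) := by
  rw [← Finset.sum_product']
  symm
  refine Finset.sum_nbij' (fun p => Fin.cons p.1 p.2) (fun l => (l 0, Fin.tail l)) ?_ ?_ ?_ ?_ ?_
  · rintro ⟨a, l⟩ h
    simp only [Finset.mem_product, Finset.mem_Icc, mem_Int'] at h ⊢
    refine ⟨fun s => ?_, ?_⟩
    · fin_cases s
      simpa using h.1
    · rw [strictMono_cons]
      exact ⟨fun s => s.elim0, fun s => s.elim0⟩
  · intro l h
    simp only [Finset.mem_product, Finset.mem_Icc, mem_Int'] at h ⊢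
    refine ⟨by simpa using h.1 0, fun s => s.elim0, fun s => s.elim0⟩
  · rintro ⟨a, l⟩ _
    simp
  · intro l _
    simp
  · rintro ⟨a, l⟩ _
    rfl

lemma sum_Int'_two (k : Fin (N + 3) → ℕ) (h01 : k 0 ≤ k 1) (h12 : k 1 < k 2)
    (G : (Fin (N + 2) → ℕ) → R) :
    ∑ l ∈ Int' k, G l = ∑ a ∈ Finset.Icc (k 0) (k 1), ∑ l ∈ Int' (Fin.tail k), G (Fin.cons a l)
      - ∑ l ∈ Int' (Fin.tail (Fin.tail k)), G (Fin.cons (k 1) (Fin.cons (k 1) l)) := by
  classical
  rw [eq_sub_iff_add_eq, ← Finset.sum_product']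
  have h3 : ∑ l ∈ Int' k, G l =
      ∑ p ∈ (Finset.Icc (k 0) (k 1) ×ˢ Int' (Fin.tail k)).filter
        (fun p => ∀ s, p.1 < p.2 s), G (Fin.cons p.1 p.2) := by
    symm
    refine Finset.sum_nbij' (fun p => Fin.cons p.1 p.2) (fun l => (l 0, Fin.tail l)) ?_ ?_ ?_ ?_ ?_
    · rintro ⟨a, l⟩ h
      simp only [Finset.mem_filter, Finset.mem_product, Finset.mem_Icc, mem_Int'] at h ⊢
      refine ⟨fun s => ?_, ?_⟩
      · refine Fin.cases ?_ (fun s' => ?_) s
        · simpa using h.1.1
        · simpa [Fin.tail] using h.1.2.1 s'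
      · rw [strictMono_cons]
        exact ⟨h.2, h.1.2.2⟩
    · intro l h
      simp only [Finset.mem_filter, Finset.mem_product, Finset.mem_Icc, mem_Int'] at h ⊢
      refine ⟨⟨by simpa using h.1 0, ?_, ?_⟩, ?_⟩
      · intro s
        have := h.1 s.succ
        simpa [Fin.tail] using this
      · intro s t hst
        exact h.2 (Fin.succ_lt_succ_iff.2 hst)
      · intro s
        exact h.2 (Fin.succ_pos s)
    · rintro ⟨a, l⟩ _
      simp
    · intro l _
      simp
    · rintro ⟨a, l⟩ _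
      rfl
  have h4 : ∑ l ∈ Int' (Fin.tail (Fin.tail k)), G (Fin.cons (k 1) (Fin.cons (k 1) l)) =
      ∑ p ∈ (Finset.Icc (k 0) (k 1) ×ˢ Int' (Fin.tail k)).filter
        (fun p => ¬ ∀ s, p.1 < p.2 s), G (Fin.cons p.1 p.2) := by
    refine Finset.sum_nbij' (fun l => (k 1, Fin.cons (k 1) l)) (fun p => Fin.tail p.2)
      ?_ ?_ ?_ ?_ ?_
    · intro l h
      simp only [Finset.mem_filter, Finset.mem_product, Finset.mem_Icc, mem_Int'] at h ⊢
      refine ⟨⟨⟨h01, le_rfl⟩, ?_, ?_⟩, ?_⟩
      · intro s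
        refine Fin.cases ?_ (fun s' => ?_) s
        · simp only [Fin.castSucc_zero, Fin.cons_zero, Fin.tail]
          exact ⟨le_rfl, h12.le⟩
        · simpa [Fin.tail] using h.1 s'
      · rw [strictMono_cons]
        refine ⟨fun s => ?_, h.2⟩
        have hN : 0 < N := lt_of_le_of_lt (Nat.zero_le _) s.isLt
        have h5 := (h.1 ⟨0, hN⟩).1
        have h6 : l ⟨0, hN⟩ ≤ l s := h.2.monotone (by rw [Fin.le_def]; exact Nat.zero_le _)
        have h7 : k 2 ≤ l ⟨0, hN⟩ := h5
        omega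
      · intro hh
        have := hh 0
        simp at this
    · rintro ⟨a, l⟩ h
      simp only [Finset.mem_filter, Finset.mem_product, Finset.mem_Icc, mem_Int'] at h ⊢
      refine ⟨fun s => ?_, fun s t hst => h.1.2.2 (Fin.succ_lt_succ_iff.2 hst)⟩
      exact h.1.2.1 s.succ
    · intro l _
      simp
    · rintro ⟨a, l⟩ h
      simp only [Finset.mem_filter, Finset.mem_product, Finset.mem_Icc, mem_Int'] at h
      obtain ⟨⟨⟨ha1, ha2⟩, hl1, hl2⟩, hn⟩ := h
      have hl0 : k 1 ≤ l 0 := (hl1 0).1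
      have hal : l 0 ≤ a := by
        by_contra hcon
        apply hn
        intro s
        have h6 : l 0 ≤ l s := hl2.monotone (Fin.zero_le s)
        omega
      have ha : a = k 1 := by omega
      have hl : l 0 = k 1 := by omega
      subst ha
      simp only [Prod.mk.injEq, true_and]
      rw [← hl]
      exact Fin.cons_self_tail l
    · intro l _
      rfl
  rw [h3, h4, Finset.sum_filter_add_sum_filter_not]

/-- sum over interlacing rows, as a function -/
def UU (k : Fin (N + 1) → ℕ) (h : Fin N → R) : R :=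
  ∑ l ∈ Int' k, (∏ s, (h s - 1)) * (mon l h * Wp h)

/-- leading term -/
def Tt (k : Fin (N + 1) → ℕ) (h : Fin N → R) : R := mon (fun s => k s.succ + 1) h * Wp h

/-- the sequence obtained by deleting `k r` and raising all later entries by one -/
def kr (k : Fin (N + 1) → ℕ) (r : Fin (N + 1)) (s : Fin N) : ℕ :=
  if s.castSucc < r then k s.castSucc else k s.succ + 1

/-- alternating sum -/
def EE (k : Fin (N + 1) → ℕ) (h : Fin N → R) : R :=
  ∑ r : Fin (N + 1), (-1) ^ (r : ℕ) * (mon (kr k r) h * Wp h)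

lemma mon_eq_cons (k : Fin (N + 1) → ℕ) (h : Fin (N + 1) → R) :
    mon k h = h 0 ^ k 0 * mon (Fin.tail k) (Fin.tail h) := by
  conv_lhs => rw [← Fin.cons_self_tail h]
  rw [mon_cons]

lemma Wp_eq_cons (h : Fin (N + 1) → R) :
    Wp h = (∏ s : Fin N, W (h 0) (h s.succ)) * Wp (Fin.tail h) := by
  conv_lhs => rw [← Fin.cons_self_tail h]
  rw [Wp_cons]
  rfl

lemma Tt_succ (k : Fin (N + 2) → ℕ) (h : Fin (N + 1) → R) :
    Tt k h = tens (fun a => a ^ (k 1 + 1)) (Tt (Fin.tail k)) h := by
  rw [Tt, tens, mon_eq_cons, Wp_eq_cons, Tt]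
  have h1 : (Fin.tail fun s : Fin (N + 1) => k s.succ + 1) =
      fun s : Fin N => Fin.tail k s.succ + 1 := rfl
  rw [h1]
  simp only [Fin.succ_zero_eq_one]
  ring

lemma EE_succ (k : Fin (N + 2) → ℕ) (h : Fin (N + 1) → R) :
    EE k h = Tt k h - tens (fun a => a ^ k 0) (EE (Fin.tail k)) h := by
  rw [EE, Fin.sum_univ_succ, sub_eq_add_neg]
  congr 1
  · have h1 : kr k 0 = fun s => k s.succ + 1 := by
      ext s
      simp [kr]
    simp [Tt, h1]
  · rw [tens, EE, Finset.mul_sum, ← Finset.sum_neg_distrib]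
    apply Finset.sum_congr rfl
    intro r _
    have h1 : kr k r.succ = Fin.cons (k 0) (kr (Fin.tail k) r) := by
      ext s
      refine Fin.cases ?_ (fun s' => ?_) s
      · simp [kr]
      · simp [kr, Fin.tail]
    rw [mon_eq_cons, Wp_eq_cons, h1]
    simp only [Fin.cons_zero, Fin.tail_cons, Fin.val_succ, pow_succ]
    ring

lemma geom_aux (a : R) {m n : ℕ} (h : m ≤ n) :
    (a - 1) * ∑ i ∈ Finset.Icc m n, a ^ i = a ^ (n + 1) - a ^ m := by
  rw [← Finset.Ico_add_one_right_eq_Icc, Finset.mul_sum]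
  have : ∀ i ∈ Finset.Ico m (n + 1), (a - 1) * a ^ i = a ^ (i + 1) - a ^ i := by
    intro i _
    ring
  rw [Finset.sum_congr rfl this, Finset.sum_Ico_sub (fun i => a ^ i) (by omega)]

lemma term_cons (a : ℕ) (l : Fin N → ℕ) (h : Fin (N + 1) → R) :
    (∏ s, (h s - 1)) * (mon (Fin.cons a l) h * Wp h) =
      ((h 0 - 1) * h 0 ^ a) * ((∏ s : Fin N, W (h 0) (h s.succ)) *
        ((∏ s : Fin N, (Fin.tail h s - 1)) * (mon l (Fin.tail h) * Wp (Fin.tail h)))) := by
  rw [mon_eq_cons, Wp_eq_cons, Fin.prod_univ_succ]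
  simp only [Fin.cons_zero, Fin.tail_cons, Fin.tail]
  ring

lemma UU_one (k : Fin 2 → ℕ) (h01 : k 0 ≤ k 1) (h : Fin 1 → R) :
    UU k h = tens (fun a => a ^ (k 1 + 1) - a ^ k 0) (UU (Fin.tail k)) h := by
  rw [UU, sum_Int'_one, tens, UU, ← geom_aux _ h01]
  simp only [term_cons, ← Finset.mul_sum, ← Finset.sum_mul]
  ring

lemma UU_two (k : Fin (N + 3) → ℕ) (h01 : k 0 ≤ k 1) (h12 : k 1 < k 2) (h : Fin (N + 2) → R) :
    UU k h = tens (fun a => a ^ (k 1 + 1) - a ^ k 0) (UU (Fin.tail k)) h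
      - tens (fun a => (a - 1) * a ^ k 1) (tens (fun a => (a - 1) * a ^ k 1)
        (UU (Fin.tail (Fin.tail k)))) h := by
  rw [UU, sum_Int'_two k h01 h12]
  congr 1
  · rw [tens, UU, ← geom_aux _ h01]
    simp only [term_cons, ← Finset.mul_sum, ← Finset.sum_mul]
    ring
  · rw [tens, tens, UU]
    simp only [term_cons, ← Finset.mul_sum, ← Finset.sum_mul]
    ring

/-- Main step: the alternating sum and the sum over interlacing rows have the same
antisymmetrisation. -/
lemma AS_UU_eq_EE : ∀ (N : ℕ) (k : Fin (N + 1) → ℕ),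
    (∀ h : 0 < N, k 0 ≤ k ⟨1, by omega⟩) →
    (∀ s t : Fin (N + 1), 0 < s → s < t → k s < k t) →
    ∀ f : Fin N → R, AS (UU k) f = AS (EE k) f := by
  intro N
  induction N using Nat.strong_induction_on with
  | _ N ih =>
    intro k hk0 hk f
    match N, ih, k, hk0, hk, f with
    | 0, ih, k, hk0, hk, f =>
      apply AS_congr
      intro x
      have h1 : Int' k = {(fun s => s.elim0 : Fin 0 → ℕ)} := by
        ext l
        simp only [mem_Int', Finset.mem_singleton]
        constructor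
        · intro _
          exact Subsingleton.elim _ _
        · intro _
          exact ⟨fun s => s.elim0, fun s => s.elim0⟩
      simp [UU, EE, h1, mon, Wp]
    | 1, ih, k, hk0, hk, f =>
      have h01 : k 0 ≤ k 1 := hk0 one_pos
      rw [AS_congr (UU_one k h01)]
      have h1 : ∀ x : Fin 1 → R, tens (fun a => a ^ (k 1 + 1) - a ^ k 0) (UU (Fin.tail k)) x =
          tens (fun a => a ^ (k 1 + 1)) (UU (Fin.tail k)) x -
            tens (fun a => a ^ k 0) (UU (Fin.tail k)) x := by
        intro x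
        simp only [tens]
        ring
      rw [AS_congr h1, AS_sub]
      have h2 : ∀ g : Fin 0 → R, AS (UU (Fin.tail k)) g = AS (EE (Fin.tail k)) g :=
        ih 0 (by norm_num) (Fin.tail k) (by intro h; exact absurd h (lt_irrefl _))
          (by intro s t hs; exact absurd hs (by omega))
      rw [tens_congr _ h2, tens_congr _ h2, AS_congr (EE_succ k), AS_sub, AS_congr (Tt_succ k)]
      congr 1
      apply tens_congr
      intro g
      apply AS_congr
      intro x
      simp [EE, Tt, mon]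
    | N + 2, ih, k, hk0, hk, f =>
      have h01 : k 0 ≤ k 1 := hk0 (by omega)
      have h12 : k 1 < k 2 := by
        have e1 : (Fin.succ 0 : Fin (N + 3)) < Fin.succ (Fin.succ 0) :=
          Fin.succ_lt_succ_iff.2 (Fin.succ_pos _)
        have e2 := hk _ _ (Fin.succ_pos _) e1
        simpa only [Fin.succ_zero_eq_one, Fin.succ_one_eq_two] using e2
      rw [AS_congr (UU_two k h01 h12), AS_sub, AS_rho]
      have h1 : ∀ x : Fin (N + 2) → R,
          tens (fun a => a ^ (k 1 + 1) - a ^ k 0) (UU (Fin.tail k)) x =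
          tens (fun a => a ^ (k 1 + 1)) (UU (Fin.tail k)) x -
            tens (fun a => a ^ k 0) (UU (Fin.tail k)) x := by
        intro x
        simp only [tens]
        ring
      rw [AS_congr h1, AS_sub]
      have htail : ∀ s t : Fin (N + 2), s < t → (Fin.tail k) s < (Fin.tail k) t := by
        intro s t hst
        exact hk s.succ t.succ (Fin.succ_pos s) (Fin.succ_lt_succ_iff.2 hst)
      have h2 : ∀ g : Fin (N + 1) → R, AS (UU (Fin.tail k)) g = AS (EE (Fin.tail k)) g :=
        ih (N + 1) (by omega) (Fin.tail k) (by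
          intro h
          exact (htail 0 ⟨1, by omega⟩ (by rw [Fin.lt_def]; simp)).le)
          (by intro s t _ hst; exact htail s t hst)
      have htail2 : ∀ s t : Fin (N + 1), s < t →
          (Fin.tail (Fin.tail k)) s < (Fin.tail (Fin.tail k)) t := by
        intro s t hst
        exact htail s.succ t.succ (Fin.succ_lt_succ_iff.2 hst)
      have h3 : ∀ g : Fin N → R, AS (UU (Fin.tail (Fin.tail k))) g =
          AS (EE (Fin.tail (Fin.tail k))) g :=
        ih N (by omega) (Fin.tail (Fin.tail k)) (by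
          intro h
          exact (htail2 0 ⟨1, by omega⟩ (by rw [Fin.lt_def]; simp)).le)
          (by intro s t _ hst; exact htail2 s t hst)
      rw [tens_congr _ h2, tens_congr _ h2, tens_congr _ (tens_congr _ h3), AS_congr (EE_succ k),
        AS_sub, AS_congr (Tt_succ k)]
      have h4 : ∀ x : Fin (N + 2) → R, tens (fun a => a ^ (k 1 + 1)) (EE (Fin.tail k)) x =
          tens (fun a => a ^ (k 1 + 1)) (Tt (Fin.tail k)) x -
          tens (fun a => a ^ (k 1 + 1)) (tens (fun a => a ^ k 1)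
            (EE (Fin.tail (Fin.tail k)))) x := by
        intro x
        conv_lhs => rw [tens, EE_succ]
        simp only [tens, Fin.tail, Fin.succ_zero_eq_one]
        ring
      rw [AS_congr h4, AS_sub]
      ring

/-- Evaluation of `PP k` with the first variable equal to `1`. -/
lemma PP_cons_one (k : Fin (N + 1) → ℕ) (f : Fin N → R) :
    PP k (Fin.cons 1 f : Fin (N + 1) → R) = AS (EE k) f := by
  rw [PP, AS_cons]
  have h1 : ∀ x, EE k x = ∑ r : Fin (N + 1), (-1) ^ (r : ℕ) * (mon (kr k r) x * (Wp x : R)) :=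
    fun x => rfl
  rw [AS_congr h1, AS_sum]
  apply Finset.sum_congr rfl
  intro r _
  rw [AS_const_mul]
  congr 1
  apply AS_congr
  intro x
  rw [mon_insertNth, Wp_insertNth, one_pow, one_mul, ← mul_assoc, ← Finset.prod_mul_distrib, mon]
  congr 1
  apply Finset.prod_congr rfl
  intro s _
  by_cases hs : s.castSucc < r
  · rw [kr, if_pos hs, if_pos hs, Fin.succAbove_of_castSucc_lt _ _ hs, W]
    ring
  · rw [kr, if_neg hs, if_neg hs, Fin.succAbove_of_le_castSucc _ _ (not_lt.1 hs), W]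
    ring

/-- The row recursion. -/
lemma PP_cons_one_eq_sum (k : Fin (N + 1) → ℕ)
    (hk0 : ∀ h : 0 < N, k 0 ≤ k ⟨1, by omega⟩)
    (hk : ∀ s t : Fin (N + 1), 0 < s → s < t → k s < k t) (f : Fin N → R) :
    PP k (Fin.cons 1 f : Fin (N + 1) → R) = (∏ s, (f s - 1)) * ∑ l ∈ Int' k, PP l f := by
  rw [PP_cons_one, ← AS_UU_eq_EE N k hk0 hk f]
  have h1 : ∀ x, UU k x = ∑ l ∈ Int' k, (∏ s, (x s - 1)) * (mon l x * (Wp x : R)) :=
    fun x => rfl
  rw [AS_congr h1, AS_sum, Finset.mul_sum]
  apply Finset.sum_congr rfl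
  intro l _
  rw [PP]
  apply AS_symm_mul
  intro h σ
  exact Equiv.prod_comp σ (fun s => h s - 1)

end Pool.Agent.Lib_MP_eb4e27_co
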