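import Pool.Agent.Lib_MP_eb4e27_co.Wheel

set_option autoImplicit false

open Finset Equiv Polynomial

namespace Pool.Agent.Lib_MP_eb4e27_co

variable {N M : ℕ}

lemma natDegree_AS_le (Ψ : (Fin N → ℚ[X]) → ℚ[X]) (f : Fin N → ℚ[X]) (d : ℕ)
    (h : ∀ σ : Perm (Fin N), natDegree (Ψ (f ∘ σ)) ≤ d) : natDegree (AS Ψ f) ≤ d := by
  rw [AS]
  apply natDegree_sum_le_of_forall_le
  intro σ _
  have h1 : (((Perm.sign σ : ℤ) : ℚ[X])) = C ((Perm.sign σ : ℤ) : ℚ) := by simp
  rw [h1]
  exact (natDegree_C_mul_le _ _).trans (h σ)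

lemma natDegree_lin1 (a : ℚ) : natDegree (X - C a : ℚ[X]) ≤ 1 := (natDegree_X_sub_C a).le

lemma natDegree_lin2 (a : ℚ) : natDegree (1 + (X - 1) * C a : ℚ[X]) ≤ 1 := by
  have : (1 + (X - 1) * C a : ℚ[X]) = C a * X + C (1 - a) := by
    rw [C_sub, C_1]; ring
  rw [this]
  exact natDegree_linear_le

lemma natDegree_lin3 (a : ℚ) : natDegree (1 - X + X * C a : ℚ[X]) ≤ 1 := by
  have : (1 - X + X * C a : ℚ[X]) = C (a - 1) * X + C 1 := by
    rw [C_sub, C_1]; ring
  rw [this]
  exact natDegree_linear_le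

lemma natDegree_QQ (k : Fin (M + 2) → ℕ) (r : Fin (M + 2)) (r' : Fin (M + 1)) (z : Fin M → ℚ) :
    natDegree (QQ k r r' (X : ℚ[X]) (fun t => C (z t))) ≤ M := by
  rw [QQ]
  have h1 : ((∏ t : Fin M, (C (z t) : ℚ[X]) ^ k (r.succAbove (r'.succAbove t))) *
      Wp (fun t => (C (z t) : ℚ[X]))) =
      C ((∏ t : Fin M, (z t) ^ k (r.succAbove (r'.succAbove t))) * Wp z) := by
    rw [C_mul, map_prod, map_Wp]
    simp only [C_pow]
    rfl
  rw [h1]
  refine (natDegree_mul_C_le _ _).trans ?_
  refine (natDegree_prod_le _ _).trans ?_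
  calc _ ≤ ∑ _t : Fin M, 1 := by
        apply Finset.sum_le_sum
        intro t _
        split_ifs
        · exact natDegree_lin1 _
        · exact natDegree_lin2 _
        · exact natDegree_lin3 _
    _ = M := by simp

lemma natDegree_SS (c : ℕ) (hc : 2 * c ≤ M) (z : Fin M → ℚ) :
    natDegree (SS c (kk (c + 1) (M + 2)) (X : ℚ[X]) (fun t => C (z t))) ≤ 2 * M := by
  rw [SS]
  apply natDegree_sum_le_of_forall_le
  intro r _
  apply natDegree_sum_le_of_forall_le
  intro r' _
  split_ifs with h
  · have hlt : (r' : ℕ) < (r : ℕ) := by simpa [Fin.lt_def] using h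
    have h1 : ((-1 : ℚ[X]) ^ ((r : ℕ) + (r' : ℕ))) = C ((-1) ^ ((r : ℕ) + (r' : ℕ))) := by simp
    rw [h1]
    refine (natDegree_C_mul_le _ _).trans ?_
    refine natDegree_mul_le.trans ?_
    have h2 : natDegree (((X : ℚ[X]) - 1) ^ (kk (c + 1) (M + 2)) r'.castSucc *
        X ^ ((kk (c + 1) (M + 2)) r + c - (kk (c + 1) (M + 2)) r'.castSucc)) ≤ M := by
      refine natDegree_mul_le.trans ?_
      have h3 : natDegree (((X : ℚ[X]) - 1) ^ (kk (c + 1) (M + 2)) r'.castSucc) ≤
          (kk (c + 1) (M + 2)) r'.castSucc := by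
        refine natDegree_pow_le.trans ?_
        have : natDegree ((X : ℚ[X]) - 1) ≤ 1 := by
          rw [← C_1]; exact natDegree_lin1 1
        calc _ ≤ (kk (c + 1) (M + 2)) r'.castSucc * 1 := Nat.mul_le_mul_left _ this
          _ = _ := mul_one _
      rw [natDegree_X_pow]
      have hr2 : (r : ℕ) < M + 2 := r.isLt
      have h4 : (kk (c + 1) (M + 2)) r'.castSucc ≤ (kk (c + 1) (M + 2)) r + c := by
        simp only [kk, Fin.val_castSucc]
        split_ifs <;> omega
      have h5 : (kk (c + 1) (M + 2)) r + c ≤ M := by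
        simp only [kk]
        split_ifs <;> omega
      omega
    have h6 : natDegree (AS (QQ (kk (c + 1) (M + 2)) r r' (X : ℚ[X])) fun t => C (z t)) ≤ M := by
      apply natDegree_AS_le
      intro σ
      exact natDegree_QQ _ r r' (fun t => z (σ t))
    omega
  · simp

lemma kk_bound (c M : ℕ) (r : Fin (M + 2)) (r' : Fin (M + 1)) (h : r'.castSucc < r) :
    kk (c + 1) (M + 2) r'.castSucc ≤ kk (c + 1) (M + 2) r + c := by
  have hlt : (r' : ℕ) < (r : ℕ) := by simpa [Fin.lt_def] using h
  simp only [kk, Fin.val_castSucc]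
  split_ifs <;> omega

/-- evaluation of the reduced expansion at a root -/
lemma SS_root (c : ℕ) (z : Fin M → ℚ) (e : ℚ) (he : 0 < e)
    (hφ : ∀ t, 1 + (e - 1) * z t ≠ 0)
    (hz : (∃ t, e = z t) ∨ (∃ t, (e - 1) / e = z t)) :
    SS c (kk (c + 1) (M + 2)) e z = 0 := by
  have h := wheel_expand c (kk (c + 1) (M + 2)) (kk_bound c M) e he.ne' z
  have h0 : PP (kk (c + 1) (M + 2)) (Fin.cons e (Fin.cons ((e - 1) / e) z : Fin (M + 1) → ℚ) :
      Fin (M + 2) → ℚ) = 0 := by
    rcases hz with ⟨t, ht⟩ | ⟨t, ht⟩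
    · apply PP_eq_zero _ _ (i := 0) (j := t.succ.succ) (Fin.succ_ne_zero _).symm
      simpa using ht
    · apply PP_eq_zero _ _ (i := (0 : Fin (M + 1)).succ) (j := t.succ.succ)
      · intro hh
        exact (Fin.succ_ne_zero _).symm (Fin.succ_injective _ hh)
      · simpa using ht
  rw [h0, mul_zero] at h
  have h1 : e ^ 2 - e + 1 ≠ 0 := by nlinarith [sq_nonneg (e - 1 / 2)]
  have h2 : (∏ t, (1 + (e - 1) * z t)) ≠ 0 := Finset.prod_ne_zero_iff.2 fun t _ => hφ t
  rcases mul_eq_zero.1 h.symm with h3 | h3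
  · rcases mul_eq_zero.1 h3 with h4 | h4
    · exact absurd h4 h1
    · exact absurd h4 h2
  · exact h3

/-- The reduced expansion in closed form, for points in the open unit interval. -/
lemma SS_eq (c : ℕ) (hc : 2 * c ≤ M) (z : Fin M → ℚ) (hz0 : ∀ t, 0 < z t) (hz1 : ∀ t, z t < 1)
    (hinj : Function.Injective z) (e : ℚ) :
    SS c (kk (c + 1) (M + 2)) e z =
      - (PP (kk c M) z * ∏ t, ((e - z t) * (e * (1 - z t) - 1))) := by
  set S : ℚ[X] := SS c (kk (c + 1) (M + 2)) (X : ℚ[X]) (fun t => C (z t)) with hS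
  have hSev : ∀ a : ℚ, S.eval a = SS c (kk (c + 1) (M + 2)) a z := by
    intro a
    have := map_SS (Polynomial.evalRingHom a) c (kk (c + 1) (M + 2)) (X : ℚ[X])
      (fun t => C (z t))
    simp only [coe_evalRingHom, eval_X] at this
    rw [← hS] at this
    rw [this]
    congr 1
    ext t
    simp
  set P : ℚ[X] := ∏ t, ((X - C (z t)) * (X * C (1 - z t) - 1)) with hP
  have hPev : ∀ a : ℚ, P.eval a = ∏ t, ((a - z t) * (a * (1 - z t) - 1)) := by
    intro a
    rw [hP, eval_prod]
    simp
  have hPdeg : natDegree P ≤ 2 * M := by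
    rw [hP]
    refine (natDegree_prod_le _ _).trans ?_
    calc _ ≤ ∑ _t : Fin M, 2 := by
          apply Finset.sum_le_sum
          intro t _
          refine natDegree_mul_le.trans ?_
          have h1 := natDegree_lin1 (z t)
          have h2 : natDegree (X * C (1 - z t) - 1 : ℚ[X]) ≤ 1 := by
            have : (X * C (1 - z t) - 1 : ℚ[X]) = C (1 - z t) * X + C (-1) := by
              rw [C_neg, C_1]; ring
            rw [this]
            exact natDegree_linear_le
          omega
      _ = 2 * M := by simp [mul_comm]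
  set D : ℚ[X] := S + C (PP (kk c M) z) * P with hD
  have hDdeg : natDegree D ≤ 2 * M := by
    rw [hD]
    refine (natDegree_add_le _ _).trans (max_le (natDegree_SS c hc z) ?_)
    exact (natDegree_C_mul_le _ _).trans hPdeg
  have hzero : D = 0 := by
    apply eq_zero_of_natDegree_lt_card_of_eval_eq_zero D (ι := Option (Fin M ⊕ Fin M))
      (f := fun o => match o with
        | none => 0
        | some (Sum.inl t) => z t
        | some (Sum.inr t) => 1 / (1 - z t))
    · have hgt : ∀ t, 1 < 1 / (1 - z t) := by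
        intro t
        rw [lt_div_iff₀ (by linarith [hz1 t])]
        linarith [hz0 t]
      rintro (_ | (t | t)) (_ | (s | s)) h <;> simp only at h
      · rfl
      · exact absurd h (hz0 s).ne
      · exact absurd h (by linarith [hgt s] : (0 : ℚ) < 1 / (1 - z s)).ne
      · exact absurd h (hz0 t).ne'
      · rw [hinj h]
      · exact absurd h (by linarith [hgt s, hz1 t] : z t < 1 / (1 - z s)).ne
      · exact absurd h (by linarith [hgt t] : (0 : ℚ) < 1 / (1 - z t)).ne'
      · exact absurd h (by linarith [hgt t, hz1 s] : z s < 1 / (1 - z t)).ne'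
      · have h1 : 1 - z t = 1 - z s := by
          have h2 : (1 - z t) ≠ 0 := by linarith [hz1 t]
          have h3 : (1 - z s) ≠ 0 := by linarith [hz1 s]
          field_simp at h
          linarith
        have : z t = z s := by linarith
        rw [hinj this]
    · rintro (_ | (t | t))
      · simp only
        rw [hD, eval_add, eval_mul, eval_C, hSev, hPev, SS_zero c hc]
        have : (∏ t, ((0 - z t) * (0 * (1 - z t) - 1))) = ∏ t, z t := by
          apply Finset.prod_congr rfl
          intro t _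
          ring
        rw [this]
        ring
      · simp only
        rw [hD, eval_add, eval_mul, eval_C, hSev, hPev, SS_root c z (z t) (hz0 t) _
          (Or.inl ⟨t, rfl⟩)]
        · rw [Finset.prod_eq_zero (Finset.mem_univ t) (by ring)]
          ring
        · intro s
          have h1 := hz0 s
          have h2 := hz1 s
          have h3 := hz0 t
          nlinarith
      · simp only
        have h1 : 0 < 1 - z t := by linarith [hz1 t]
        have h2 : 0 < 1 / (1 - z t) := by positivity
        rw [hD, eval_add, eval_mul, eval_C, hSev, hPev, SS_root c z (1 / (1 - z t)) h2 _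
          (Or.inr ⟨t, by field_simp; ring⟩)]
        · rw [Finset.prod_eq_zero (Finset.mem_univ t) (by field_simp; ring)]
          ring
        · intro s
          have h3 : 1 < 1 / (1 - z t) := by
            rw [lt_div_iff₀ h1]
            linarith [hz0 t]
          have h4 := hz0 s
          have : 0 < (1 / (1 - z t) - 1) * z s := mul_pos (by linarith) h4
          linarith
    · simp only [Fintype.card_option, Fintype.card_sum, Fintype.card_fin]
      omega
  have h1 := congrArg (Polynomial.eval e) hzero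
  rw [hD, eval_add, eval_mul, eval_C, hSev, hPev, eval_zero] at h1
  linarith

/-- The wheel recursion for points of the unit interval. -/
lemma wheel_rec_unit (c : ℕ) (hc : 2 * c ≤ M) (z : Fin M → ℚ) (hz0 : ∀ t, 0 < z t)
    (hz1 : ∀ t, z t < 1) (e : ℚ) (he : e ≠ 0) :
    e ^ (M + 1 + c) * PP (kk (c + 1) (M + 2)) (Fin.cons e (Fin.cons ((e - 1) / e) z :
      Fin (M + 1) → ℚ) : Fin (M + 2) → ℚ) =
      - ((e ^ 2 - e + 1) * (∏ t, ((1 + (e - 1) * z t) * ((e - z t) * (e * (1 - z t) - 1)))) *
        PP (kk c M) z) := by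
  by_cases hinj : Function.Injective z
  · rw [wheel_expand c _ (kk_bound c M) e he z, SS_eq c hc z hz0 hz1 hinj,
      Finset.prod_mul_distrib (f := fun t => 1 + (e - 1) * z t)]
    ring
  · rw [Function.Injective] at hinj
    push Not at hinj
    obtain ⟨s, t, hst, hne⟩ := hinj
    rw [PP_eq_zero (kk c M) z hne hst, PP_eq_zero (kk (c + 1) (M + 2)) _
      (i := s.succ.succ) (j := t.succ.succ)]
    · ring
    · intro h
      exact hne (Fin.succ_injective _ (Fin.succ_injective _ h))
    · simpa using hst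

end Pool.Agent.Lib_MP_eb4e27_co
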