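import Pool.Agent.Lib_MP_eb4e27_co.Interlace

set_option autoImplicit false

open Finset Equiv

namespace Pool.Agent.Lib_MP_eb4e27_co

variable {R : Type*} [CommRing R] {N M : ℕ}

lemma PP_comp_perm (k : Fin N → ℕ) (f : Fin N → R) (π : Perm (Fin N)) :
    PP k (f ∘ π) = ((Perm.sign π : ℤ) : R) * PP k f := AS_comp_perm _ f π

lemma PP_eq_zero (k : Fin N → ℕ) (f : Fin N → R) {i j : Fin N} (hij : i ≠ j) (hf : f i = f j) :
    PP k f = 0 := AS_eq_zero_of_eq hij f hf

lemma cons_comp_perm {α : Type*} (a : α) (f : Fin N → α) (π : Perm (Fin N)) :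
    (Fin.cons a (f ∘ π) : Fin (N + 1) → α) =
      (Fin.cons a f : Fin (N + 1) → α) ∘ Perm.decomposeFin.symm (0, π) := by
  ext x
  refine Fin.cases ?_ (fun i => ?_) x
  · simp
  · simp

lemma PP_cons_comp_perm (k : Fin (N + 1) → ℕ) (a : R) (f : Fin N → R) (π : Perm (Fin N)) :
    PP k (Fin.cons a (f ∘ π) : Fin (N + 1) → R) =
      ((Perm.sign π : ℤ) : R) * PP k (Fin.cons a f : Fin (N + 1) → R) := by
  rw [cons_comp_perm, PP_comp_perm, Perm.decomposeFin.symm_sign]
  simp

/-- Expansion along the first two variables. -/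
lemma AS_cons2 (Ψ : (Fin (M + 2) → R) → R) (x y : R) (z : Fin M → R) :
    AS Ψ (Fin.cons x (Fin.cons y z : Fin (M + 1) → R) : Fin (M + 2) → R) =
      ∑ r : Fin (M + 2), ∑ r' : Fin (M + 1), (-1) ^ ((r : ℕ) + (r' : ℕ)) *
        AS (fun g => Ψ (r.insertNth x (r'.insertNth y g : Fin (M + 1) → R))) z := by
  rw [AS_cons]
  apply Finset.sum_congr rfl
  intro r _
  rw [AS_cons, Finset.mul_sum]
  apply Finset.sum_congr rfl
  intro r' _
  rw [pow_add]
  ring

/-- The summand in the two-variable expansion. -/
def QQ (k : Fin (M + 2) → ℕ) (r : Fin (M + 2)) (r' : Fin (M + 1)) (e : R) (g : Fin M → R) : R :=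
  (∏ t : Fin M, if t.castSucc < r' then (e - g t) else
      if t.succ.castSucc < r then (1 + (e - 1) * g t) else (1 - e + e * g t)) *
    ((∏ t : Fin M, g t ^ k (r.succAbove (r'.succAbove t))) * Wp g)

/-- The reduced two-variable expansion. -/
def SS (c : ℕ) (k : Fin (M + 2) → ℕ) (e : R) (z : Fin M → R) : R :=
  ∑ r : Fin (M + 2), ∑ r' : Fin (M + 1), if r'.castSucc < r then
    (-1) ^ ((r : ℕ) + (r' : ℕ)) * ((e - 1) ^ k r'.castSucc * e ^ (k r + c - k r'.castSucc) *
      AS (QQ k r r' e) z) else 0

lemma map_W {S : Type*} [CommRing S] (φ : R →+* S) (a b : R) : φ (W a b) = W (φ a) (φ b) := by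
  simp [W]

lemma map_Wp {S : Type*} [CommRing S] (φ : R →+* S) (h : Fin N → R) :
    φ (Wp h) = Wp (φ ∘ h) := by
  simp only [Wp, map_prod, Function.comp_apply]
  apply Finset.prod_congr rfl
  intro p _
  apply Finset.prod_congr rfl
  intro q _
  split_ifs
  · exact map_W φ _ _
  · simp

lemma map_PP {S : Type*} [CommRing S] (φ : R →+* S) (k : Fin N → ℕ) (f : Fin N → R) :
    φ (PP k f) = PP k (φ ∘ f) := by
  apply AS_map
  intro x
  rw [map_mul, map_Wp, mon, map_prod, mon]
  simp

lemma map_SS {S : Type*} [CommRing S] (φ : R →+* S) (c : ℕ) (k : Fin (M + 2) → ℕ) (e : R)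
    (z : Fin M → R) : φ (SS c k e z) = SS c k (φ e) (φ ∘ z) := by
  simp only [SS, map_sum]
  apply Finset.sum_congr rfl
  intro r _
  apply Finset.sum_congr rfl
  intro r' _
  split_ifs
  · rw [map_mul, map_mul, map_mul, AS_map φ (QQ k r r' e) (QQ k r r' (φ e))]
    · simp
    · intro x
      simp only [QQ, map_mul, map_prod, map_Wp, map_pow, Function.comp_apply]
      congr 1
      apply Finset.prod_congr rfl
      intro t _
      split_ifs <;> simp
  · simp

/-- Two-variable expansion at a wheel point. -/
lemma wheel_expand {K : Type*} [Field K] (c : ℕ) (k : Fin (M + 2) → ℕ)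
    (hk : ∀ (r : Fin (M + 2)) (r' : Fin (M + 1)), r'.castSucc < r → k r'.castSucc ≤ k r + c)
    (e : K) (he : e ≠ 0) (z : Fin M → K) :
    e ^ (M + 1 + c) * PP k (Fin.cons e (Fin.cons ((e - 1) / e) z : Fin (M + 1) → K) :
      Fin (M + 2) → K) = (e ^ 2 - e + 1) * (∏ t, (1 + (e - 1) * z t)) * SS c k e z := by
  rw [PP, AS_cons2, SS, Finset.mul_sum, Finset.mul_sum]
  apply Finset.sum_congr rfl
  intro r _
  rw [Finset.mul_sum, Finset.mul_sum]
  apply Finset.sum_congr rfl
  intro r' _
  have hxy : W e ((e - 1) / e) = 0 := by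
    rw [W]; field_simp; ring
  split_ifs with hr
  · -- y is placed before x
    have hφ : AS (fun g : Fin M → K => (∏ t, (1 + (e - 1) * g t)) * QQ k r r' e g) z =
        (∏ t, (1 + (e - 1) * z t)) * AS (QQ k r r' e) z := by
      apply AS_symm_mul
      intro h σ
      exact Equiv.prod_comp σ (fun s => 1 + (e - 1) * h s)
    have hmain : ∀ g : Fin M → K,
        e ^ (M + 1 + c) * (mon k (r.insertNth e (r'.insertNth ((e - 1) / e) g :
          Fin (M + 1) → K) : Fin (M + 2) → K) *
          Wp (r.insertNth e (r'.insertNth ((e - 1) / e) g : Fin (M + 1) → K) :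
            Fin (M + 2) → K)) =
        ((e ^ 2 - e + 1) * ((e - 1) ^ k r'.castSucc * e ^ (k r + c - k r'.castSucc))) *
          ((∏ t, (1 + (e - 1) * g t)) * QQ k r r' e g) := by
      intro g
      rw [mon_insertNth, Wp_insertNth, Wp_insertNth,
        Fin.prod_univ_succAbove (fun s : Fin (M + 1) =>
          (r'.insertNth ((e - 1) / e) g : Fin (M + 1) → K) s ^ k (r.succAbove s)) r',
        Fin.prod_univ_succAbove (fun s : Fin (M + 1) => if s.castSucc < r then
          W ((r'.insertNth ((e - 1) / e) g : Fin (M + 1) → K) s) e else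
          W e ((r'.insertNth ((e - 1) / e) g : Fin (M + 1) → K) s)) r']
      simp only [Fin.insertNth_apply_same, Fin.insertNth_apply_succAbove, if_pos hr]
      rw [Fin.succAbove_of_castSucc_lt _ _ hr, QQ]
      -- combine the products over t
      have hprod : e ^ M * ((∏ t : Fin M, if (r'.succAbove t).castSucc < r then W (g t) e else
            W e (g t)) * (∏ t : Fin M, if t.castSucc < r' then W (g t) ((e - 1) / e) else
            W ((e - 1) / e) (g t))) =
          (∏ t, (1 + (e - 1) * g t)) * (∏ t : Fin M, if t.castSucc < r' then (e - g t) else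
            if t.succ.castSucc < r then (1 + (e - 1) * g t) else (1 - e + e * g t)) := by
        rw [← Finset.prod_mul_distrib, ← Finset.prod_mul_distrib]
        have : e ^ M = ∏ _t : Fin M, e := by simp
        rw [this, ← Finset.prod_mul_distrib]
        apply Finset.prod_congr rfl
        intro t _
        by_cases ht : t.castSucc < r'
        · have h2 : (r'.succAbove t).castSucc < r := by
            rw [Fin.succAbove_of_castSucc_lt _ _ ht]
            exact lt_trans (Fin.castSucc_lt_castSucc_iff.2 ht) hr
          rw [if_pos ht, if_pos ht, if_pos h2, W, W]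
          field_simp
          ring
        · rw [if_neg ht, if_neg ht, Fin.succAbove_of_le_castSucc _ _ (not_lt.1 ht)]
          split_ifs
          · rw [W, W]
            field_simp
            ring
          · rw [W, W]
            field_simp
            ring
      have hW : e * W ((e - 1) / e) e = e ^ 2 - e + 1 := by
        rw [W]
        field_simp
        ring
      have hpow : e ^ c * (e ^ k r * ((e - 1) / e) ^ k r'.castSucc) =
          (e - 1) ^ k r'.castSucc * e ^ (k r + c - k r'.castSucc) := by
        have h1 := hk r r' hr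
        have h2 : e ^ (k r + c) = e ^ (k r + c - k r'.castSucc) * e ^ k r'.castSucc := by
          rw [← pow_add]
          congr 1
          omega
        have h3 : e ^ c * e ^ k r = e ^ (k r + c) := by rw [pow_add]; ring
        rw [← mul_assoc, h3, h2, div_pow]
        have h4 : e ^ k r'.castSucc ≠ 0 := pow_ne_zero _ he
        field_simp
      calc _ = (e ^ c * (e ^ k r * ((e - 1) / e) ^ k r'.castSucc)) * (e * W ((e - 1) / e) e) *
            (e ^ M * ((∏ t : Fin M, if (r'.succAbove t).castSucc < r then W (g t) e else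
            W e (g t)) * (∏ t : Fin M, if t.castSucc < r' then W (g t) ((e - 1) / e) else
            W ((e - 1) / e) (g t)))) *
            ((∏ t : Fin M, g t ^ k (r.succAbove (r'.succAbove t))) * Wp g) := by
              rw [pow_add, pow_add]; ring
        _ = _ := by
              rw [hprod, hW, hpow]
              ring
    have hAS := AS_congr hmain z
    rw [AS_const_mul, AS_const_mul, hφ] at hAS
    linear_combination (-1) ^ ((r : ℕ) + (r' : ℕ)) * hAS
  · -- x is placed before y : the term vanishes
    have h0 : ∀ g : Fin M → K,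
        mon k (r.insertNth e (r'.insertNth ((e - 1) / e) g :
          Fin (M + 1) → K) : Fin (M + 2) → K) *
          Wp (r.insertNth e (r'.insertNth ((e - 1) / e) g : Fin (M + 1) → K) :
            Fin (M + 2) → K) = 0 := by
      intro g
      rw [Wp_insertNth, Fin.prod_univ_succAbove (fun s : Fin (M + 1) => if s.castSucc < r then
          W ((r'.insertNth ((e - 1) / e) g : Fin (M + 1) → K) s) e else
          W e ((r'.insertNth ((e - 1) / e) g : Fin (M + 1) → K) s)) r']
      simp only [Fin.insertNth_apply_same, if_neg hr, hxy]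
      ring
    rw [AS_congr h0, AS_zero]
    ring

/-- The exponent sequence `0, 1, ..., i - 1, 0, 1, ...`. -/
def kk (i N : ℕ) : Fin N → ℕ := fun s => if (s : ℕ) < i then (s : ℕ) else (s : ℕ) - i

lemma prod_sign (c M : ℕ) (hc : c ≤ M) :
    (∏ t : Fin M, if (t : ℕ) < c then (-1 : R) else 1) = (-1) ^ c := by
  rw [Finset.prod_ite]
  simp only [Finset.prod_const, one_pow, mul_one]
  congr 1
  have h1 : (Finset.univ.filter fun t : Fin M => (t : ℕ) < c) =
      (Finset.univ : Finset (Fin c)).map (Fin.castLEEmb hc) := by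
    ext t
    simp only [Finset.mem_filter, Finset.mem_univ, true_and, Finset.mem_map, Fin.castLEEmb_apply]
    constructor
    · intro h
      exact ⟨⟨t, h⟩, rfl⟩
    · rintro ⟨a, rfl⟩
      exact a.isLt
  rw [h1, Finset.card_map, Finset.card_univ, Fintype.card_fin]

lemma SS_zero (c : ℕ) (hc : 2 * c ≤ M) (z : Fin M → R) :
    SS c (kk (c + 1) (M + 2)) 0 z = - ((∏ t, z t) * PP (kk c M) z) := by
  have hr0 : c + 1 < M + 2 := by omega
  have hr0' : c < M + 1 := by omega
  rw [SS, Finset.sum_eq_single (⟨c + 1, hr0⟩ : Fin (M + 2))]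
  · rw [Finset.sum_eq_single (⟨c, hr0'⟩ : Fin (M + 1))]
    · have h1 : (⟨c, hr0'⟩ : Fin (M + 1)).castSucc < ⟨c + 1, hr0⟩ := by
        simp [Fin.lt_def]
      rw [if_pos h1]
      have hq : ∀ g : Fin M → R, QQ (kk (c + 1) (M + 2)) ⟨c + 1, hr0⟩ ⟨c, hr0'⟩ 0 g =
          (-1) ^ c * ((∏ t, g t) * (mon (kk c M) g * Wp g)) := by
        intro g
        rw [QQ, ← prod_sign c M (by omega), mon]
        have h2 : (∏ t : Fin M, if t.castSucc < (⟨c, hr0'⟩ : Fin (M + 1)) then (0 - g t) else
            if t.succ.castSucc < (⟨c + 1, hr0⟩ : Fin (M + 2)) then (1 + (0 - 1) * g t)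
              else (1 - 0 + 0 * g t)) *
            (∏ t : Fin M, g t ^ (kk (c + 1) (M + 2)) ((⟨c + 1, hr0⟩ : Fin (M + 2)).succAbove
              ((⟨c, hr0'⟩ : Fin (M + 1)).succAbove t))) =
            (∏ t : Fin M, if (t : ℕ) < c then (-1 : R) else 1) * (∏ t, g t) *
              ∏ t, g t ^ (kk c M) t := by
          rw [← Finset.prod_mul_distrib, ← Finset.prod_mul_distrib, ← Finset.prod_mul_distrib]
          apply Finset.prod_congr rfl
          intro t _
          by_cases ht : (t : ℕ) < c
          · have h3 : t.castSucc < (⟨c, hr0'⟩ : Fin (M + 1)) := by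
              simpa [Fin.lt_def] using ht
            have h4 : t.castSucc.castSucc < (⟨c + 1, hr0⟩ : Fin (M + 2)) := by
              simp only [Fin.lt_def, Fin.val_castSucc]
              omega
            rw [if_pos h3, if_pos ht, Fin.succAbove_of_castSucc_lt _ _ h3,
              Fin.succAbove_of_castSucc_lt _ _ h4, kk, kk]
            simp only [Fin.val_castSucc]
            rw [if_pos ht, if_pos (by omega)]
            ring
          · have h3 : ¬ t.castSucc < (⟨c, hr0'⟩ : Fin (M + 1)) := by
              simpa [Fin.lt_def] using ht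
            have h4 : ¬ t.succ.castSucc < (⟨c + 1, hr0⟩ : Fin (M + 2)) := by
              simp only [Fin.lt_def, Fin.val_castSucc, Fin.val_succ]
              omega
            rw [if_neg h3, if_neg ht, if_neg h4, Fin.succAbove_of_le_castSucc _ _ (not_lt.1 h3),
              Fin.succAbove_of_le_castSucc _ _ (not_lt.1 h4), kk, kk]
            simp only [Fin.val_succ]
            rw [if_neg ht, if_neg (by omega)]
            have h5 : (t : ℕ) + 1 + 1 - (c + 1) = (t : ℕ) - c + 1 := by omega
            rw [h5]
            ring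
        rw [← mul_assoc, h2]
        ring
      rw [AS_congr hq, AS_const_mul]
      have h6 : AS (fun g : Fin M → R => (∏ t, g t) * (mon (kk c M) g * Wp g)) z =
          (∏ t, z t) * PP (kk c M) z := by
        rw [PP]
        apply AS_symm_mul
        intro h σ
        exact Equiv.prod_comp σ h
      rw [h6]
      have h7 : kk (c + 1) (M + 2) (⟨c, hr0'⟩ : Fin (M + 1)).castSucc = c := by
        simp [kk]
      have h8 : kk (c + 1) (M + 2) ⟨c + 1, hr0⟩ = 0 := by
        simp [kk]
      rw [h7, h8]
      have h9 : (0 : R) ^ (0 + c - c) = 1 := by simp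
      rw [h9]
      simp only
      have h10 : (-1 : R) ^ (c + 1 + c) = -1 := by
        rw [show c + 1 + c = 2 * c + 1 by ring, pow_succ, pow_mul]
        simp
      rw [h10]
      have h11 : (0 - 1 : R) ^ c * (-1) ^ c = 1 := by
        rw [zero_sub, ← mul_pow]
        simp
      linear_combination (- (∏ t, z t) * PP (kk c M) z) * h11
    · intro r' _ hr'
      split_ifs with h
      · have hlt : (r' : ℕ) < c + 1 := by simpa [Fin.lt_def] using h
        have hne : (r' : ℕ) ≠ c := fun hh => hr' (Fin.ext hh)
        have h12 : kk (c + 1) (M + 2) ⟨c + 1, hr0⟩ + c -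
            kk (c + 1) (M + 2) r'.castSucc ≠ 0 := by
          simp only [kk, Fin.val_castSucc, if_pos hlt]
          simp
          omega
        rw [zero_pow h12]
        ring
      · rfl
    · intro h
      exact absurd (Finset.mem_univ _) h
  · intro r _ hr
    apply Finset.sum_eq_zero
    intro r' _
    split_ifs with h
    · have hlt : (r' : ℕ) < (r : ℕ) := by simpa [Fin.lt_def] using h
      have hne : (r : ℕ) ≠ c + 1 := fun hh => hr (Fin.ext hh)
      have h12 : kk (c + 1) (M + 2) r + c -
          kk (c + 1) (M + 2) r'.castSucc ≠ 0 := by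
        simp only [kk, Fin.val_castSucc]
        split_ifs <;> omega
      rw [zero_pow h12]
      ring
    · rfl
  · intro h
    exact absurd (Finset.mem_univ _) h

end Pool.Agent.Lib_MP_eb4e27_co
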